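import Pool.Agent.Lib.MP_69e010_mp.QDefs

/-!
# JOB HA1 / HA2 (stream H of MP_69e010_mp): Lipschitz functions on `Conf N`, basic tools

* `LipC.cont`, `LipC.bdd`: a Lipschitz function is continuous; continuous with compact support is bounded
  (`Continuous.bounded_above_of_compact_support` or `HasCompactSupport.exists_bound_of_continuous`).
* Rademacher: `LipschitzWith.ae_differentiableAt` (the volume of `Conf N` is a Haar measure, instance).
* `abs_pd_le`: `norm_fderiv_le_of_lipschitz` (or `HasFDerivAt.le_of_lipschitz`), the vector `Pi.single k (EuclideanSpace.single c 1)`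
  has sup norm 1 (`Pi.norm_single`/`norm_single`).
* `measurable_pd`: `measurable_fderiv_apply_const`.
* `pd_eq_zero`: outside the topological support the function is locally zero (`support_fderiv_subset`).
* `integrable_of_bdd_supp`: bounded + measurable + compact support => integrable (integrable on the compact
  set `tsupport G`, zero outside: `IntegrableOn`, `integrableOn_iff_integrable_of_support_subset`).
* `LipC.mul`: product of a Lipschitz compactly supported function and a Lipschitz function.  Near the support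
  (a bounded set) `G` is bounded by `M`; for `X, Y`: `|F X G X - F Y G Y| <= |F X - F Y| |G X| + |F Y| |G X - G Y|` if
  `X` is in the support, (symmetric if only `Y` is), so the Lipschitz constant is `K M + C L`.
* product rule: `fderiv_fun_mul` / `HasFDerivAt.mul`.
-/

open MeasureTheory Metric Finset Filter Topology

noncomputable section

namespace Ion

variable {N : ℕ}

theorem LipC.cont {F : Conf N → ℝ} (hF : LipC F) : Continuous F := by
  obtain ⟨⟨K, hK⟩, -⟩ := hF
  exact hK.continuous

theorem LipC.bdd {F : Conf N → ℝ} (hF : LipC F) : ∃ C : ℝ, 0 ≤ C ∧ ∀ X, |F X| ≤ C := by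
  obtain ⟨C, hC⟩ := hF.2.exists_bound_of_continuous hF.cont
  refine ⟨C, (norm_nonneg (F 0)).trans (hC 0), fun X => ?_⟩
  rw [← Real.norm_eq_abs]
  exact hC X

theorem lip_ae_diff {F : Conf N → ℝ} {K : NNReal} (hF : LipschitzWith K F) :
    ∀ᵐ X : Conf N, DifferentiableAt ℝ F X := by
  exact hF.ae_differentiableAt

theorem LipC.ae_diff {F : Conf N → ℝ} (hF : LipC F) : ∀ᵐ X : Conf N, DifferentiableAt ℝ F X := by
  obtain ⟨K, hK⟩ := hF.1
  exact lip_ae_diff hK

theorem abs_pd_le {F : Conf N → ℝ} {K : NNReal} (hF : LipschitzWith K F) (k : Fin N) (c : Fin 3)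
    (X : Conf N) : |pd k c F X| ≤ K := by
  unfold pd
  rw [← Real.norm_eq_abs]
  refine (ContinuousLinearMap.le_opNorm _ _).trans ?_
  have h1 : ‖fderiv ℝ F X‖ ≤ K := norm_fderiv_le_of_lipschitz ℝ hF
  have h2 : ‖(Pi.single k (EuclideanSpace.single c (1 : ℝ)) : Conf N)‖ = 1 := by
    rw [Pi.norm_single, EuclideanSpace.norm_single, norm_one]
  rw [h2, mul_one]
  exact h1

theorem measurable_pd (k : Fin N) (c : Fin 3) (F : Conf N → ℝ) : Measurable (pd k c F) := by
  exact measurable_fderiv_apply_const ℝ F _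

theorem pd_eq_zero {F : Conf N → ℝ} {X : Conf N} (h : X ∉ tsupport F) (k : Fin N) (c : Fin 3) :
    pd k c F X = 0 := by
  have h1 : fderiv ℝ F X = 0 := by
    by_contra hne
    exact h (support_fderiv_subset ℝ hne)
  unfold pd
  rw [h1]
  simp

theorem gsq_nonneg (k : Fin N) (F : Conf N → ℝ) (X : Conf N) : 0 ≤ gsq k F X := by
  unfold gsq
  positivity

theorem measurable_gsq (k : Fin N) (F : Conf N → ℝ) : Measurable (gsq k F) := by
  unfold gsq
  exact Finset.measurable_fun_sum _ (fun c _ => (measurable_pd k c F).pow_const 2)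

theorem gsq_le {F : Conf N → ℝ} {K : NNReal} (hF : LipschitzWith K F) (k : Fin N) (X : Conf N) :
    gsq k F X ≤ 3 * (K : ℝ) ^ 2 := by
  unfold gsq
  have h1 : ∀ c : Fin 3, (pd k c F X) ^ 2 ≤ (K : ℝ) ^ 2 := by
    intro c
    rw [← sq_abs (pd k c F X)]
    exact pow_le_pow_left₀ (abs_nonneg _) (abs_pd_le hF k c X) 2
  calc ∑ c, (pd k c F X) ^ 2 ≤ ∑ _c : Fin 3, (K : ℝ) ^ 2 := Finset.sum_le_sum (fun c _ => h1 c)
    _ = 3 * (K : ℝ) ^ 2 := by simp

/-- bounded, measurable, compactly supported functions are integrable -/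
theorem integrable_of_bdd_supp {G : Conf N → ℝ} (hG : Measurable G) {C : ℝ}
    (hb : ∀ X, |G X| ≤ C) {S : Set (Conf N)} (hS : IsCompact S) (hs : ∀ X, X ∉ S → G X = 0) :
    Integrable G := by
  have h1 : IntegrableOn G S volume := by
    refine IntegrableOn.of_bound hS.measure_lt_top hG.aestronglyMeasurable C ?_
    exact Filter.Eventually.of_forall (fun X => by rw [Real.norm_eq_abs]; exact hb X)
  refine (integrableOn_iff_integrable_of_support_subset ?_).1 h1
  intro X hX
  by_contra hne
  exact hX (hs X hne)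

theorem LipC.integrable {F : Conf N → ℝ} (hF : LipC F) : Integrable F := by
  exact hF.cont.integrable_of_hasCompactSupport hF.2

theorem LipC.integrable_sq {F : Conf N → ℝ} (hF : LipC F) : Integrable (fun X => (F X) ^ 2) := by
  refine Continuous.integrable_of_hasCompactSupport (hF.cont.pow 2) ?_
  exact hF.2.comp_left (g := fun x : ℝ => x ^ 2) (by norm_num)

theorem LipC.integrable_mul {F G : Conf N → ℝ} (hF : LipC F) (hG : LipC G) :
    Integrable (fun X => F X * G X) := by
  refine Continuous.integrable_of_hasCompactSupport (hF.cont.mul hG.cont) ?_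
  exact hF.2.mul_right

theorem LipC.integrable_gsq {F : Conf N → ℝ} (hF : LipC F) (k : Fin N) :
    Integrable (gsq k F) := by
  obtain ⟨K, hK⟩ := hF.1
  refine integrable_of_bdd_supp (measurable_gsq k F) (C := 3 * (K : ℝ) ^ 2) ?_ hF.2 ?_
  · intro X
    rw [abs_of_nonneg (gsq_nonneg k F X)]
    exact gsq_le hK k X
  · intro X hX
    unfold gsq
    refine Finset.sum_eq_zero ?_
    intro c _
    rw [pd_eq_zero hX]
    norm_num

theorem LipC.integrable_gin {F G : Conf N → ℝ} (hF : LipC F) (hG : LipC G) (k : Fin N) :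
    Integrable (gin k F G) := by
  obtain ⟨K, hK⟩ := hF.1
  obtain ⟨L, hL⟩ := hG.1
  refine integrable_of_bdd_supp ?_ (C := 3 * ((K : ℝ) * L)) ?_ hF.2 ?_
  · unfold gin
    exact Finset.measurable_fun_sum _ (fun c _ => (measurable_pd k c F).mul (measurable_pd k c G))
  · intro X
    unfold gin
    refine (Finset.abs_sum_le_sum_abs _ _).trans ?_
    have h1 : ∀ c : Fin 3, |pd k c F X * pd k c G X| ≤ (K : ℝ) * L := by
      intro c
      rw [abs_mul]
      exact mul_le_mul (abs_pd_le hK k c X) (abs_pd_le hL k c X) (abs_nonneg _) K.coe_nonneg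
    calc ∑ c, |pd k c F X * pd k c G X| ≤ ∑ _c : Fin 3, (K : ℝ) * L := Finset.sum_le_sum (fun c _ => h1 c)
      _ = 3 * ((K : ℝ) * L) := by simp
  · intro X hX
    unfold gin
    refine Finset.sum_eq_zero ?_
    intro c _
    rw [pd_eq_zero hX, zero_mul]

end Ion
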