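import Pool.Agent.Lib.MP_69e010_mp.H.HA1

/-!
# JOB HA1 / HA2 (stream H of MP_69e010_mp): Lipschitz functions on `Conf N`, basic tools

* `LipC.cont`, `LipC.bdd`: a Lipschitz function is continuous; continuous with compact support is bounded
  (`Continuous.bounded_above_of_compact_support` or `HasCompactSupport.exists_bound_of_continuous`).
* Rademacher: `LipschitzWith.ae_differentiableAt` (the volume of `Conf N` is a Haar measure, instance).
* `abs_pd_le`: `norm_fderiv_le_of_lipschitz` (or `HasFDerivAt.le_of_lipschitz`), the vector `Pi.single k (EuclideanSpace.single c 1)`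
  has sup norm 1 (`Pi.norm_single`/`norm_single`).
* `measurable_pd`: `measurable_fderiv_apply_const`.
* `pd_eq_zero`: outside the topological support the function is locally zero (`support_fderiv_subset`).
* `integrable_of_bdd_supp`: bounded + measurable + compact support => integrable (integrable on the compact
  set `tsupport G`, zero outside: `IntegrableOn`, `integrableOn_iff_integrable_of_support_subset`).
* `LipC.mul`: product of a Lipschitz compactly supported function and a Lipschitz function.  Near the support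
  (a bounded set) `G` is bounded by `M`; for `X, Y`: `|F X G X - F Y G Y| <= |F X - F Y| |G X| + |F Y| |G X - G Y|` if
  `X` is in the support, (symmetric if only `Y` is), so the Lipschitz constant is `K M + C L`.
* product rule: `fderiv_fun_mul` / `HasFDerivAt.mul`.
-/

open MeasureTheory Metric Finset Filter Topology

noncomputable section

namespace Ion

variable {N : ℕ}

theorem LipC.neg {F : Conf N → ℝ} (hF : LipC F) : LipC (fun X => - F X) := by
  obtain ⟨⟨K, hK⟩, hc⟩ := hF
  refine ⟨⟨K, ?_⟩, ?_⟩
  · exact hK.neg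
  · exact hc.comp_left (g := fun x : ℝ => -x) neg_zero

theorem LipC.add {F G : Conf N → ℝ} (hF : LipC F) (hG : LipC G) : LipC (fun X => F X + G X) := by
  obtain ⟨⟨K, hK⟩, hc⟩ := hF
  obtain ⟨⟨L, hL⟩, hd⟩ := hG
  refine ⟨⟨K + L, ?_⟩, ?_⟩
  · exact hK.add hL
  · exact hc.add hd

theorem LipC.const_mul {F : Conf N → ℝ} (hF : LipC F) (a : ℝ) : LipC (fun X => a * F X) := by
  obtain ⟨⟨K, hK⟩, hc⟩ := hF
  refine ⟨⟨‖a‖₊ * K, ?_⟩, ?_⟩
  · apply LipschitzWith.of_dist_le_mul
    intro X Y
    have h := hK.dist_le_mul X Y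
    rw [Real.dist_eq] at h ⊢
    rw [← mul_sub, abs_mul]
    push_cast
    rw [Real.norm_eq_abs, mul_assoc]
    exact mul_le_mul_of_nonneg_left h (abs_nonneg a)
  · exact hc.comp_left (g := fun x : ℝ => a * x) (mul_zero a)

theorem LipC.mul {F G : Conf N → ℝ} {K : NNReal} (hF : LipC F) (hG : LipschitzWith K G) :
    LipC (fun X => F X * G X) := by
  obtain ⟨C, hC0, hC⟩ := hF.bdd
  obtain ⟨⟨L, hL⟩, hc⟩ := hF
  obtain ⟨M, hM⟩ := (hc.isCompact.exists_bound_of_continuousOn hG.continuous.continuousOn :
    ∃ M, ∀ X ∈ tsupport F, ‖G X‖ ≤ M)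
  have hM0 : 0 ≤ max M 0 := le_max_right _ _
  have hzero : ∀ X, X ∉ tsupport F → F X = 0 := fun X hX => image_eq_zero_of_notMem_tsupport hX
  -- the one-sided estimate
  have key : ∀ X Y, X ∈ tsupport F →
      |F X * G X - F Y * G Y| ≤ ((L : ℝ) * max M 0 + C * K) * dist X Y := by
    intro X Y hX
    have h1 : |F X - F Y| ≤ L * dist X Y := by
      rw [← Real.dist_eq]; exact hL.dist_le_mul X Y
    have h2 : |G X - G Y| ≤ K * dist X Y := by
      rw [← Real.dist_eq]; exact hG.dist_le_mul X Y
    have h3 : |G X| ≤ max M 0 := le_trans (hM X hX) (le_max_left _ _)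
    have e : F X * G X - F Y * G Y = (F X - F Y) * G X + F Y * (G X - G Y) := by ring
    have hd : 0 ≤ dist X Y := dist_nonneg
    calc |F X * G X - F Y * G Y| = |(F X - F Y) * G X + F Y * (G X - G Y)| := by rw [e]
      _ ≤ |(F X - F Y) * G X| + |F Y * (G X - G Y)| := abs_add_le _ _
      _ = |F X - F Y| * |G X| + |F Y| * |G X - G Y| := by rw [abs_mul, abs_mul]
      _ ≤ (L * dist X Y) * max M 0 + C * (K * dist X Y) := by
          apply add_le_add
          · exact mul_le_mul h1 h3 (abs_nonneg _) (by positivity)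
          · exact mul_le_mul (hC Y) h2 (abs_nonneg _) hC0
      _ = ((L : ℝ) * max M 0 + C * K) * dist X Y := by ring
  refine ⟨⟨⟨(L : ℝ) * max M 0 + C * K, by positivity⟩, ?_⟩, ?_⟩
  · apply LipschitzWith.of_dist_le_mul
    intro X Y
    rw [Real.dist_eq]
    change |F X * G X - F Y * G Y| ≤ ((L : ℝ) * max M 0 + C * K) * dist X Y
    by_cases hX : X ∈ tsupport F
    · exact key X Y hX
    · by_cases hY : Y ∈ tsupport F
      · have := key Y X hY
        rw [dist_comm Y X] at this
        rw [abs_sub_comm]
        exact this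
      · rw [hzero X hX, hzero Y hY]
        simp only [zero_mul, sub_self, abs_zero]
        positivity
  · exact hc.mul_right

theorem pd_mul {F G : Conf N → ℝ} {X : Conf N} (hF : DifferentiableAt ℝ F X)
    (hG : DifferentiableAt ℝ G X) (k : Fin N) (c : Fin 3) :
    pd k c (fun X => F X * G X) X = F X * pd k c G X + pd k c F X * G X := by
  unfold pd
  rw [fderiv_fun_mul hF hG]
  simp only [ContinuousLinearMap.add_apply, ContinuousLinearMap.smul_apply, smul_eq_mul]
  ring

theorem pd_add {F G : Conf N → ℝ} {X : Conf N} (hF : DifferentiableAt ℝ F X)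
    (hG : DifferentiableAt ℝ G X) (k : Fin N) (c : Fin 3) :
    pd k c (fun X => F X + G X) X = pd k c F X + pd k c G X := by
  unfold pd
  rw [fderiv_fun_add hF hG]
  rfl

/-- the derivative in the direction of a change of electron `i` by `w` -/
theorem fderiv_single {F : Conf N → ℝ} {X : Conf N} (i : Fin N) (w : E3) :
    fderiv ℝ F X (Pi.single i w) = ∑ c, w c * pd i c F X := by
  have hw : (Pi.single i w : Conf N) = ∑ c, w c • (Pi.single i (EuclideanSpace.single c (1 : ℝ)) : Conf N) := by
    ext j d
    rw [Finset.sum_apply]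
    by_cases hj : j = i
    · subst hj
      simp [Finset.sum_apply, Pi.single_apply]
    · simp [Pi.single_apply, hj]
  rw [hw, map_sum]
  apply Finset.sum_congr rfl
  intro c _
  rw [map_smul, smul_eq_mul]
  rfl

/-- Cauchy-Schwarz for the derivative of electron `i` in the direction `w` -/
theorem fderiv_single_sq_le {F : Conf N → ℝ} {X : Conf N} (i : Fin N) (w : E3) :
    (fderiv ℝ F X (Pi.single i w)) ^ 2 ≤ ‖w‖ ^ 2 * gsq i F X := by
  rw [fderiv_single]
  have h := Finset.sum_mul_sq_le_sq_mul_sq (Finset.univ : Finset (Fin 3)) (fun c => w c)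
    (fun c => pd i c F X)
  have e : ‖w‖ ^ 2 = ∑ c, w c ^ 2 := by
    rw [EuclideanSpace.norm_sq_eq]
    simp [sq_abs]
  rw [e]
  exact h

end Ion
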