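import Pool.Agent.Lib.MP_69e010_mp.H.HA

/-!
# JOB HB1 / HB2 (stream H of MP_69e010_mp): slices in one electron

`Conf (n+1) = E3 x Conf n` through `MeasurableEquiv.piFinSuccAbove (fun _ => E3) i`, which is measure preserving:
`volume_preserving_piFinSuccAbove`.  Its inverse is `fun p => i.insertNth p.1 p.2` (`Fin.insertNth`), and
`Function.update (i.insertNth x Y) i x' = i.insertNth x' Y` (`Fin.update_insertNth` or `Fin.insertNth_..`).
* `integral_insert`: change of variables + `integral_prod_symm`/`integral_prod` (in the order `∫ Y, ∫ x`).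
* `ae_update`: transport the null set, `Measure.ae_ae_of_ae_prod` (for a.e. `Y`, for a.e. `x`), then the property of `X` only
  depends on `Y = i.removeNth X`, transport back.
* `integrable_update`: `Integrable.prod_left_ae`/`prod_right_ae`, transport back.
* `slice_lip`: `update X i x` and `update X i x'` have sup distance `dist x x'`.
* `slice_fderiv`: chain rule, `hasFDerivAt_update` (the derivative of `x ↦ update X i x` is `h ↦ Pi.single i h`).
* `integral_box`: both sides are `∫ Y, ∫ x in B, G (i.insertNth x Y)`.
-/

open MeasureTheory Metric Finset Filter Topology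

noncomputable section

namespace Ion

variable {N : ℕ}

theorem aux_hb1_mp {n : ℕ} (i : Fin (n + 1)) :
    MeasurePreserving (MeasurableEquiv.piFinSuccAbove (fun _ : Fin (n + 1) => E3) i) volume
      ((volume : Measure E3).prod (volume : Measure (Conf n))) :=
  volume_preserving_piFinSuccAbove (fun _ => E3) i

theorem aux_hb1_int {n : ℕ} (i : Fin (n + 1)) {G : Conf (n + 1) → ℝ} :
    Integrable G ↔ Integrable (fun p : E3 × Conf n => G (i.insertNth p.1 p.2))
      ((volume : Measure E3).prod (volume : Measure (Conf n))) := by
  have h := (aux_hb1_mp i).symm.integrable_comp_emb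
    (MeasurableEquiv.measurableEmbedding _) (g := G)
  exact h.symm

theorem integral_insert {n : ℕ} (i : Fin (n + 1)) {G : Conf (n + 1) → ℝ} (hG : Integrable G) :
    ∫ X, G X = ∫ Y : Conf n, ∫ x : E3, G (i.insertNth x Y) := by
  have h1 := aux_hb1_mp i
  have h2 := (aux_hb1_mp i).symm.integral_comp' (g := G)
  rw [← h2]
  have h3 : Integrable (fun p : E3 × Conf n => G (i.insertNth p.1 p.2)) := (aux_hb1_int i).1 hG
  exact integral_prod_symm _ h3

theorem integrable_insert {n : ℕ} (i : Fin (n + 1)) {G : Conf (n + 1) → ℝ} :
    Integrable G ↔ Integrable (fun p : E3 × Conf n => G (i.insertNth p.1 p.2)) := by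
  exact aux_hb1_int i

theorem aux_hb1_back {n : ℕ} (i : Fin (n + 1)) {P : Conf n → Prop} {Q : Conf (n + 1) → Prop}
    (h : ∀ᵐ Y : Conf n, P Y) (hPQ : ∀ X : Conf (n + 1), P (i.removeNth X) → Q X) :
    ∀ᵐ X : Conf (n + 1), Q X := by
  have h1 : ∀ᵐ p : E3 × Conf n ∂((volume : Measure E3).prod (volume : Measure (Conf n))), P p.2 :=
    Measure.quasiMeasurePreserving_snd.ae h
  have h2 := (aux_hb1_mp i).quasiMeasurePreserving.ae h1
  filter_upwards [h2] with X hX
  exact hPQ X hX

theorem ae_update {P : Conf N → Prop} (h : ∀ᵐ X : Conf N, P X) (i : Fin N) :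
    ∀ᵐ X : Conf N, ∀ᵐ x : E3, P (Function.update X i x) := by
  cases N with
  | zero => exact i.elim0
  | succ n =>
    have h1 : ∀ᵐ p : E3 × Conf n ∂((volume : Measure E3).prod (volume : Measure (Conf n))),
        P (i.insertNth p.1 p.2) := (aux_hb1_mp i).symm.quasiMeasurePreserving.ae h
    have h2 : ∀ᵐ q : Conf n × E3 ∂((volume : Measure (Conf n)).prod (volume : Measure E3)),
        P (i.insertNth q.2 q.1) := by
      have h3 := (Measure.measurePreserving_swap (μ := (volume : Measure (Conf n)))
        (ν := (volume : Measure E3))).quasiMeasurePreserving.ae h1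
      exact h3
    exact aux_hb1_back i (P := fun Y => ∀ᵐ x : E3, P (i.insertNth x Y)) (Measure.ae_ae_of_ae_prod h2)
      (fun X hX => by
        filter_upwards [hX] with x hx
        rwa [Fin.insertNth_removeNth] at hx)

theorem integrable_update {G : Conf N → ℝ} (hG : Integrable G) (i : Fin N) :
    ∀ᵐ X : Conf N, Integrable (fun x : E3 => G (Function.update X i x)) := by
  cases N with
  | zero => exact i.elim0
  | succ n =>
    have h1 := (aux_hb1_int i).1 hG
    refine aux_hb1_back i (P := fun Y => Integrable (fun x : E3 => G (i.insertNth x Y))) h1.prod_left_ae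
      (fun X hX => ?_)
    have h2 : (fun x : E3 => G (Function.update X i x)) = fun x : E3 => G (i.insertNth x (i.removeNth X)) := by
      funext x
      rw [Fin.insertNth_removeNth]
    rw [h2]
    exact hX

/-- averaging over the box `B` in the variable of electron `i` -/
theorem integral_box {B : Set E3} (hB : MeasurableSet B) (hB0 : volume B ≠ 0)
    (hB1 : volume B ≠ ⊤) {G : Conf N → ℝ} (hG : Integrable G) (i : Fin N) :
    Integrable (fun X : Conf N => B.indicator (fun _ => (1 : ℝ)) (X i)
      * ((volume.real B)⁻¹ * ∫ x in B, G (Function.update X i x))) ∧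
    ∫ X, B.indicator (fun _ => (1 : ℝ)) (X i) * G X
      = ∫ X, B.indicator (fun _ => (1 : ℝ)) (X i)
        * ((volume.real B)⁻¹ * ∫ x in B, G (Function.update X i x)) := by
  cases N with
  | zero => exact i.elim0
  | succ n =>
    have hBr : volume.real B ≠ 0 := by
      rw [Measure.real, ENNReal.toReal_ne_zero]
      exact ⟨hB0, hB1⟩
    have hprod := (aux_hb1_int i).1 hG
    have hF : Integrable (fun p : E3 × Conf n => B.indicator (fun _ => (1 : ℝ)) p.1 * G (i.insertNth p.1 p.2))
        ((volume : Measure E3).prod (volume : Measure (Conf n))) := by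
      have h1 := hprod.indicator (s := B ×ˢ Set.univ) (hB.prod MeasurableSet.univ)
      refine h1.congr (Filter.Eventually.of_forall fun p => ?_)
      by_cases hp : p.1 ∈ B
      · simp [Set.indicator_of_mem, hp]
      · simp [Set.indicator_of_notMem, hp]
    have hind : ∀ (g : E3 → ℝ), ∫ x, B.indicator (fun _ => (1 : ℝ)) x * g x = ∫ x in B, g x := by
      intro g
      rw [← integral_indicator hB]
      refine integral_congr_ae (Filter.Eventually.of_forall fun x => ?_)
      by_cases hx : x ∈ B
      · simp [Set.indicator_of_mem, hx]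
      · simp [Set.indicator_of_notMem, hx]
    have hupd : ∀ (x x' : E3) (Y : Conf n), Function.update (i.insertNth x Y : Conf (n + 1)) i x' = i.insertNth x' Y :=
      fun x x' Y => Fin.update_insertNth (α := fun _ => E3) i x x' Y
    have hI : Integrable (fun Y : Conf n => ∫ x in B, G (i.insertNth x Y)) := by
      have h1 := hF.integral_prod_right
      refine h1.congr (Filter.Eventually.of_forall fun Y => ?_)
      exact hind _
    have hone : Integrable (B.indicator fun _ => (1 : ℝ)) (volume : Measure E3) := by
      rw [integrable_indicator_iff hB]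
      exact integrableOn_const hB1 (by simp)
    have hR : Integrable (fun p : E3 × Conf n => B.indicator (fun _ => (1 : ℝ)) p.1
        * ((volume.real B)⁻¹ * ∫ x in B, G (i.insertNth x p.2)))
        ((volume : Measure E3).prod (volume : Measure (Conf n))) :=
      hone.mul_prod (hI.const_mul _)
    have hRX : Integrable (fun X : Conf (n + 1) => B.indicator (fun _ => (1 : ℝ)) (X i)
        * ((volume.real B)⁻¹ * ∫ x in B, G (Function.update X i x))) := by
      rw [aux_hb1_int i]
      refine hR.congr (Filter.Eventually.of_forall fun p => ?_)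
      simp only [Fin.insertNth_apply_same, hupd]
    refine ⟨hRX, ?_⟩
    have hL : Integrable (fun X : Conf (n + 1) => B.indicator (fun _ => (1 : ℝ)) (X i) * G X) := by
      rw [aux_hb1_int i]
      refine hF.congr (Filter.Eventually.of_forall fun p => ?_)
      simp only [Fin.insertNth_apply_same]
    rw [integral_insert i hL, integral_insert i hRX]
    refine integral_congr_ae (Filter.Eventually.of_forall fun Y => ?_)
    simp only [Fin.insertNth_apply_same, hupd]
    rw [hind, hind, integral_const, smul_eq_mul, measureReal_restrict_apply_univ]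
    field_simp

end Ion
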