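import Pool.Agent.Lib.MP_69e010_mp.H.HB1

/-!
# JOB HB1 / HB2 (stream H of MP_69e010_mp): slices in one electron

`Conf (n+1) = E3 x Conf n` through `MeasurableEquiv.piFinSuccAbove (fun _ => E3) i`, which is measure preserving:
`volume_preserving_piFinSuccAbove`.  Its inverse is `fun p => i.insertNth p.1 p.2` (`Fin.insertNth`), and
`Function.update (i.insertNth x Y) i x' = i.insertNth x' Y` (`Fin.update_insertNth` or `Fin.insertNth_..`).
* `integral_insert`: change of variables + `integral_prod_symm`/`integral_prod` (in the order `∫ Y, ∫ x`).
* `ae_update`: transport the null set, `Measure.ae_ae_of_ae_prod` (for a.e. `Y`, for a.e. `x`), then the property of `X` only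
  depends on `Y = i.removeNth X`, transport back.
* `integrable_update`: `Integrable.prod_left_ae`/`prod_right_ae`, transport back.
* `slice_lip`: `update X i x` and `update X i x'` have sup distance `dist x x'`.
* `slice_fderiv`: chain rule, `hasFDerivAt_update` (the derivative of `x ↦ update X i x` is `h ↦ Pi.single i h`).
* `integral_box`: both sides are `∫ Y, ∫ x in B, G (i.insertNth x Y)`.
-/

open MeasureTheory Metric Finset Filter Topology

noncomputable section

namespace Ion

variable {N : ℕ}

theorem aux_HB2_dist (X : Conf N) (i : Fin N) (x x' : E3) :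
    dist (Function.update X i x) (Function.update X i x') ≤ dist x x' := by
  rw [dist_pi_le_iff dist_nonneg]
  intro k
  by_cases hk : k = i
  · subst hk
    rw [Function.update_self, Function.update_self]
  · rw [Function.update_of_ne hk, Function.update_of_ne hk, dist_self]
    exact dist_nonneg

theorem slice_lip {F : Conf N → ℝ} {K : NNReal} (hF : LipschitzWith K F) (X : Conf N)
    (i : Fin N) : LipschitzWith K (fun x : E3 => F (Function.update X i x)) :=
  LipschitzWith.of_dist_le_mul fun x x' =>
    (hF.dist_le_mul _ _).trans (mul_le_mul_of_nonneg_left (aux_HB2_dist X i x x') K.2)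

theorem slice_supp {F : Conf N → ℝ} (hF : HasCompactSupport F) (X : Conf N) (i : Fin N) :
    HasCompactSupport (fun x : E3 => F (Function.update X i x)) := by
  have hc : IsCompact (tsupport F) := hF
  refine HasCompactSupport.intro (hc.image (continuous_apply i)) (fun x hx => ?_)
  by_contra hne
  exact hx ⟨Function.update X i x, subset_tsupport _ hne, Function.update_self i x X⟩

theorem slice_fderiv {F : Conf N → ℝ} {X : Conf N} {i : Fin N} {x : E3}
    (h : DifferentiableAt ℝ F (Function.update X i x)) (c : Fin 3) :
    DifferentiableAt ℝ (fun x : E3 => F (Function.update X i x)) x ∧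
    fderiv ℝ (fun x : E3 => F (Function.update X i x)) x (EuclideanSpace.single c (1 : ℝ))
      = pd i c F (Function.update X i x) := by
  have h1 : HasFDerivAt (Function.update X i)
      (ContinuousLinearMap.pi (Pi.single i (ContinuousLinearMap.id ℝ E3))) x :=
    hasFDerivAt_update X x
  have h2 : HasFDerivAt (fun x : E3 => F (Function.update X i x))
      ((fderiv ℝ F (Function.update X i x)).comp
        (ContinuousLinearMap.pi (Pi.single i (ContinuousLinearMap.id ℝ E3)))) x :=
    h.hasFDerivAt.comp x h1
  refine ⟨h2.differentiableAt, ?_⟩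
  rw [h2.fderiv]
  unfold pd
  rw [ContinuousLinearMap.comp_apply]
  congr 1
  funext j
  rw [ContinuousLinearMap.pi_apply]
  by_cases hj : j = i
  · subst hj
    rw [Pi.single_eq_same, Pi.single_eq_same]
    rfl
  · rw [Pi.single_eq_of_ne hj, Pi.single_eq_of_ne hj]
    rfl

/-- a map which only changes the coordinate `i`, in product coordinates -/
theorem aux_HB2_conj {n : ℕ} (i : Fin (n + 1)) (T : Conf (n + 1) → Conf (n + 1))
    (φ : E3 × Conf n → E3 × Conf n) (hφ : Measurable φ)
    (hT : ∀ X, T X = (MeasurableEquiv.piFinSuccAbove (fun _ : Fin (n + 1) => E3) i).symm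
      (φ (MeasurableEquiv.piFinSuccAbove (fun _ : Fin (n + 1) => E3) i X))) (c : ENNReal)
    (h : Measure.map φ volume = c • volume) :
    Measurable T ∧ Measure.map T volume = c • volume := by
  set e := MeasurableEquiv.piFinSuccAbove (fun _ : Fin (n + 1) => E3) i with he
  have hp : MeasurePreserving e volume volume := volume_preserving_piFinSuccAbove (fun _ => E3) i
  have hT' : T = e.symm ∘ φ ∘ e := funext hT
  have hTm : Measurable T := by
    rw [hT']
    exact e.symm.measurable.comp (hφ.comp e.measurable)
  refine ⟨hTm, ?_⟩
  rw [hT', ← Measure.map_map e.symm.measurable (hφ.comp e.measurable),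
    ← Measure.map_map hφ e.measurable, hp.map_eq, h, Measure.map_smul, (hp.symm e).map_eq]

theorem aux_HB2_int {T : Conf N → Conf N} (hT : Measurable T) {c : ENNReal} (hc : c ≠ ⊤)
    (h : Measure.map T volume = c • volume) {G : Conf N → ℝ} (hG : Integrable G) :
    Integrable (fun X : Conf N => G (T X)) ∧ ∫ X, G (T X) = c.toReal * ∫ X, G X := by
  have h1 : Integrable G (Measure.map T volume) := by
    rw [h]
    exact hG.smul_measure hc
  refine ⟨h1.comp_measurable hT, ?_⟩
  rw [← integral_map hT.aemeasurable h1.aestronglyMeasurable, h, integral_smul_measure,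
    smul_eq_mul]

/-- a linear scaling of electron `i` -/
theorem integral_scale {G : Conf N → ℝ} (hG : Integrable G) (i : Fin N) {t : ℝ} (ht : 0 < t) :
    Integrable (fun X : Conf N => G (Function.update X i (t • X i))) ∧
    ∫ X, G (Function.update X i (t • X i)) = (t ^ 3)⁻¹ * ∫ X, G X := by
  obtain ⟨n, rfl⟩ : ∃ n, N = n + 1 := ⟨N - 1, by have := i.2; omega⟩
  have hφ : Measurable (fun p : E3 × Conf n => (t • p.1, p.2)) :=
    (measurable_fst.const_smul t).prodMk measurable_snd
  have hmap : Measure.map (fun p : E3 × Conf n => (t • p.1, p.2)) volume =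
      ENNReal.ofReal ((t ^ 3)⁻¹) • (volume : Measure (E3 × Conf n)) := by
    have h1 : Measure.map (fun x : E3 => t • x) volume =
        ENNReal.ofReal ((t ^ 3)⁻¹) • (volume : Measure E3) := by
      have h2 := Measure.map_addHaar_smul (volume : Measure E3) ht.ne'
      rw [finrank_euclideanSpace_fin, abs_of_pos (by positivity)] at h2
      exact h2
    have h3 : Measure.map (Prod.map (fun x : E3 => t • x) (id : Conf n → Conf n))
        ((volume : Measure E3).prod (volume : Measure (Conf n))) =
        (Measure.map (fun x : E3 => t • x) volume).prod (Measure.map id volume) :=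
      (Measure.map_prod_map _ _ (measurable_const_smul t) measurable_id).symm
    rw [Measure.volume_eq_prod]
    refine Eq.trans h3 ?_
    rw [h1, Measure.map_id, Measure.prod_smul_left]
  obtain ⟨hT, h⟩ := aux_HB2_conj i (fun X : Conf (n + 1) => Function.update X i (t • X i))
    (fun p => (t • p.1, p.2)) hφ (fun X => by
      show Function.update X i (t • X i) = Fin.insertNth i (t • X i) (Fin.removeNth i X)
      rw [Fin.insertNth_removeNth]) _ hmap
  have h1 := aux_HB2_int hT ENNReal.ofReal_ne_top h hG
  rwa [ENNReal.toReal_ofReal (by positivity)] at h1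

/-- replacing `x_i` by `x_i + x_j` preserves integrals -/
theorem integral_shear {G : Conf N → ℝ} (hG : Integrable G) {i j : Fin N} (hij : i ≠ j) :
    Integrable (fun X : Conf N => G (Function.update X i (X i + X j))) ∧
    ∫ X, G (Function.update X i (X i + X j)) = ∫ X, G X := by
  obtain ⟨n, rfl⟩ : ∃ n, N = n + 1 := ⟨N - 1, by have := i.2; omega⟩
  obtain ⟨j', rfl⟩ := Fin.exists_succAbove_eq hij.symm
  have hev : Measurable (fun Y : Conf n => Y j') := measurable_pi_apply j'
  have hφ : Measurable (fun p : E3 × Conf n => (p.1 + p.2 j', p.2)) :=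
    (measurable_fst.add (hev.comp measurable_snd)).prodMk measurable_snd
  have hmp : MeasurePreserving (fun q : Conf n × E3 => (q.1, q.2 + q.1 j'))
      ((volume : Measure (Conf n)).prod (volume : Measure E3))
      ((volume : Measure (Conf n)).prod (volume : Measure E3)) := by
    refine (MeasurePreserving.id (volume : Measure (Conf n))).skew_product
      (g := fun (Y : Conf n) (x : E3) => x + Y j') ?_ ?_
    · exact measurable_snd.add (hev.comp measurable_fst)
    · exact Filter.Eventually.of_forall fun Y => map_add_right_eq_self volume (Y j')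
  have hsw1 : MeasurePreserving (Prod.swap : E3 × Conf n → Conf n × E3)
      ((volume : Measure E3).prod (volume : Measure (Conf n)))
      ((volume : Measure (Conf n)).prod (volume : Measure E3)) := Measure.measurePreserving_swap
  have hsw2 : MeasurePreserving (Prod.swap : Conf n × E3 → E3 × Conf n)
      ((volume : Measure (Conf n)).prod (volume : Measure E3))
      ((volume : Measure E3).prod (volume : Measure (Conf n))) := Measure.measurePreserving_swap
  have hmap : Measure.map (fun p : E3 × Conf n => (p.1 + p.2 j', p.2)) volume =
      (1 : ENNReal) • (volume : Measure (E3 × Conf n)) := by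
    rw [one_smul]
    exact (hsw2.comp (hmp.comp hsw1)).map_eq
  obtain ⟨hT, h⟩ := aux_HB2_conj i
    (fun X : Conf (n + 1) => Function.update X i (X i + X (i.succAbove j')))
    (fun p => (p.1 + p.2 j', p.2)) hφ (fun X => by
      show Function.update X i (X i + X (i.succAbove j')) =
        Fin.insertNth i (X i + Fin.removeNth i X j') (Fin.removeNth i X)
      rw [Fin.insertNth_removeNth]
      rfl) _ hmap
  have h1 := aux_HB2_int hT ENNReal.one_ne_top h hG
  rwa [ENNReal.toReal_one, one_mul] at h1

end Ion
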