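import Pool.Agent.Lib.MP_69e010_mp.H.HB

/-!
# JOB HC1 / HC2 (stream H of MP_69e010_mp): integrability of the Coulomb singularities

* `integrableOn_inv_sq`: `∫_{|x|<R} |x|^{-2} dx` is finite in dimension three.  Possible proofs: polar coordinates
  (`MeasureTheory.integrable_fun_norm_addHaar`: `∫ f ‖x‖ = 3 vol(B_1) ∫_0^∞ r^2 f(r) dr`), or dyadic shells
  (`‖x‖ ∈ [2^{-k-1} R, 2^{-k} R)` has volume `<= C 8^{-k}`).
* `integrable_inv_sq_mul`: `G` bounded by `C`, measurable and zero outside a compact set, hence outside `{‖X‖ <= R}`.  Write (if `N = n+1`)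
  `Conf N = E3 x Conf n` (`integrable_insert`) and dominate by the product function
  `C (‖x‖⁻¹)^2 1_{‖x‖ <= R} * 1_{‖Y‖ <= R}` (`Integrable.mul_prod`).
* pairs: apply `integral_shear` to `H X = (‖X i‖⁻¹)^2 * G (update X i (X i + X j))`... (or dominate for fixed `x_j` by translation).
* first powers: `‖x‖⁻¹ <= 1 + (‖x‖⁻¹)^2`.
-/

open MeasureTheory Metric Finset Filter Topology

noncomputable section

namespace Ion

variable {N : ℕ}

theorem integrableOn_inv_sq (R : ℝ) :
    IntegrableOn (fun x : E3 => (‖x‖⁻¹) ^ 2) (closedBall 0 R) := by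
  have h1 : Integrable (fun x : E3 => (Set.Iic R).indicator (fun y : ℝ => (y⁻¹) ^ 2) ‖x‖) := by
    rw [integrable_fun_norm_addHaar (volume : Measure E3)
      (f := (Set.Iic R).indicator (fun y : ℝ => (y⁻¹) ^ 2))]
    have h2 : ∀ y ∈ Set.Ioi (0:ℝ), y ^ (Module.finrank ℝ E3 - 1) •
        (Set.Iic R).indicator (fun y : ℝ => (y⁻¹) ^ 2) y =
        (Set.Iic R).indicator (fun _ : ℝ => (1 : ℝ)) y := by
      intro y hy
      have hy0 : y ≠ 0 := ne_of_gt hy
      rw [finrank_euclideanSpace_fin, smul_eq_mul]
      by_cases hyR : y ∈ Set.Iic R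
      · rw [Set.indicator_of_mem hyR, Set.indicator_of_mem hyR]
        field_simp
      · rw [Set.indicator_of_notMem hyR, Set.indicator_of_notMem hyR, mul_zero]
    rw [integrableOn_congr_fun h2 measurableSet_Ioi, IntegrableOn,
      integrable_indicator_iff measurableSet_Iic]
    rw [IntegrableOn, Measure.restrict_restrict measurableSet_Iic]
    have h3 : Set.Iic R ∩ Set.Ioi 0 = Set.Ioc 0 R := by
      ext y
      simp [and_comm]
    rw [h3]
    exact integrableOn_const (by simp)
  rw [← integrable_indicator_iff isClosed_closedBall.measurableSet]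
  refine h1.congr (Filter.Eventually.of_forall fun x => ?_)
  show (Set.Iic R).indicator (fun y : ℝ => (y⁻¹) ^ 2) ‖x‖ =
    (closedBall (0 : E3) R).indicator (fun x : E3 => (‖x‖⁻¹) ^ 2) x
  by_cases hx : ‖x‖ ≤ R
  · rw [Set.indicator_of_mem (show ‖x‖ ∈ Set.Iic R from hx),
      Set.indicator_of_mem (show x ∈ closedBall (0 : E3) R from mem_closedBall_zero_iff.2 hx)]
  · rw [Set.indicator_of_notMem (show ‖x‖ ∉ Set.Iic R from hx),
      Set.indicator_of_notMem (show x ∉ closedBall (0 : E3) R from
        fun h => hx (mem_closedBall_zero_iff.1 h))]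

/-- the dominating function in product coordinates -/
theorem aux_HC1_dom {n : ℕ} (R R' C : ℝ) :
    Integrable (fun p : E3 × Conf n => (closedBall (0 : E3) R).indicator (fun x => (‖x‖⁻¹) ^ 2) p.1 *
      (closedBall (0 : Conf n) R').indicator (fun _ => C) p.2) := by
  refine Integrable.mul_prod (μ := (volume : Measure E3)) (ν := (volume : Measure (Conf n)))
    (f := (closedBall (0 : E3) R).indicator (fun x => (‖x‖⁻¹) ^ 2))
    (g := (closedBall (0 : Conf n) R').indicator (fun _ => C)) ?_ ?_
  · rw [integrable_indicator_iff isClosed_closedBall.measurableSet]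
    exact integrableOn_inv_sq R
  · rw [integrable_indicator_iff isClosed_closedBall.measurableSet]
    exact integrableOn_const (isCompact_closedBall _ _).measure_lt_top.ne

theorem aux_HC1_norm {n : ℕ} (i : Fin (n + 1)) (x : E3) (Y : Conf n) :
    ‖x‖ ≤ ‖(i.insertNth x Y : Conf (n + 1))‖ ∧ ‖Y‖ ≤ ‖(i.insertNth x Y : Conf (n + 1))‖ := by
  constructor
  · have := norm_le_pi_norm (i.insertNth x Y : Conf (n + 1)) i
    rwa [Fin.insertNth_apply_same] at this
  · rw [pi_norm_le_iff_of_nonneg (norm_nonneg _)]
    intro k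
    have := norm_le_pi_norm (i.insertNth x Y : Conf (n + 1)) (i.succAbove k)
    rwa [Fin.insertNth_apply_succAbove] at this

theorem integrable_inv_sq_mul {G : Conf N → ℝ} (hG : Measurable G) {C : ℝ}
    (hb : ∀ X, |G X| ≤ C) {S : Set (Conf N)} (hS : IsCompact S) (hs : ∀ X, X ∉ S → G X = 0)
    (i : Fin N) : Integrable (fun X => (‖X i‖⁻¹) ^ 2 * G X) := by
  obtain ⟨n, rfl⟩ : ∃ n, N = n + 1 := ⟨N - 1, by have := i.2; omega⟩
  obtain ⟨R, hR⟩ := hS.isBounded.subset_closedBall (0 : Conf (n + 1))
  rw [integrable_insert i]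
  have hC : 0 ≤ C := (abs_nonneg _).trans (hb 0)
  refine (aux_HC1_dom (n := n) R R C).mono' ?_ ?_
  · apply Measurable.aestronglyMeasurable
    have h1 : Measurable (fun p : E3 × Conf n => (i.insertNth p.1 p.2 : Conf (n + 1))) :=
      (MeasurableEquiv.piFinSuccAbove (fun _ : Fin (n + 1) => E3) i).symm.measurable
    have h2 : Measurable (fun p : E3 × Conf n => ((i.insertNth p.1 p.2 : Conf (n + 1)) i)) :=
      (measurable_pi_apply i).comp h1
    exact ((h2.norm.inv).pow_const 2).mul (hG.comp h1)
  · refine Filter.Eventually.of_forall fun p => ?_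
    rw [Real.norm_eq_abs, abs_mul, abs_of_nonneg (sq_nonneg _), Fin.insertNth_apply_same]
    by_cases h0 : (i.insertNth p.1 p.2 : Conf (n + 1)) ∈ S
    · have h1 := mem_closedBall_zero_iff.1 (hR h0)
      obtain ⟨h2, h3⟩ := aux_HC1_norm i p.1 p.2
      rw [Set.indicator_of_mem (mem_closedBall_zero_iff.2 (h2.trans h1)),
        Set.indicator_of_mem (mem_closedBall_zero_iff.2 (h3.trans h1))]
      exact mul_le_mul_of_nonneg_left (hb _) (sq_nonneg _)
    · rw [hs _ h0, abs_zero, mul_zero]
      refine mul_nonneg (Set.indicator_nonneg (fun _ _ => sq_nonneg _) _)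
        (Set.indicator_nonneg (fun _ _ => hC) _)

theorem integrable_inv_sq_mul_pair {G : Conf N → ℝ} (hG : Measurable G) {C : ℝ}
    (hb : ∀ X, |G X| ≤ C) {S : Set (Conf N)} (hS : IsCompact S) (hs : ∀ X, X ∉ S → G X = 0)
    {i j : Fin N} (hij : i ≠ j) : Integrable (fun X => (‖X i - X j‖⁻¹) ^ 2 * G X) := by
  obtain ⟨n, rfl⟩ : ∃ n, N = n + 1 := ⟨N - 1, by have := i.2; omega⟩
  obtain ⟨j', rfl⟩ := Fin.exists_succAbove_eq hij.symm
  obtain ⟨R, hR⟩ := hS.isBounded.subset_closedBall (0 : Conf (n + 1))
  rw [integrable_insert i]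
  have hC : 0 ≤ C := (abs_nonneg _).trans (hb 0)
  have hev : Measurable (fun Y : Conf n => Y j') := measurable_pi_apply j'
  -- the shear preserves the measure
  have hmp : MeasurePreserving (fun q : Conf n × E3 => (q.1, q.2 - q.1 j'))
      ((volume : Measure (Conf n)).prod (volume : Measure E3))
      ((volume : Measure (Conf n)).prod (volume : Measure E3)) := by
    refine (MeasurePreserving.id (volume : Measure (Conf n))).skew_product
      (g := fun (Y : Conf n) (x : E3) => x - Y j') ?_ ?_
    · exact measurable_snd.sub (hev.comp measurable_fst)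
    · exact Filter.Eventually.of_forall fun Y =>
        (measurePreserving_sub_right (volume : Measure E3) (Y j')).map_eq
  have hsw1 : MeasurePreserving (Prod.swap : E3 × Conf n → Conf n × E3)
      ((volume : Measure E3).prod (volume : Measure (Conf n)))
      ((volume : Measure (Conf n)).prod (volume : Measure E3)) := Measure.measurePreserving_swap
  have hsw2 : MeasurePreserving (Prod.swap : Conf n × E3 → E3 × Conf n)
      ((volume : Measure (Conf n)).prod (volume : Measure E3))
      ((volume : Measure E3).prod (volume : Measure (Conf n))) := Measure.measurePreserving_swap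
  have hψ : MeasurePreserving (fun p : E3 × Conf n => (p.1 - p.2 j', p.2))
      ((volume : Measure E3).prod (volume : Measure (Conf n)))
      ((volume : Measure E3).prod (volume : Measure (Conf n))) := hsw2.comp (hmp.comp hsw1)
  have hdom : Integrable (fun p : E3 × Conf n =>
      (closedBall (0 : E3) (2 * R)).indicator (fun x => (‖x‖⁻¹) ^ 2) (p.1 - p.2 j') *
      (closedBall (0 : Conf n) R).indicator (fun _ => C) p.2) :=
    hψ.integrable_comp_of_integrable (aux_HC1_dom (n := n) (2 * R) R C)
  refine hdom.mono' ?_ ?_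
  · apply Measurable.aestronglyMeasurable
    have h1 : Measurable (fun p : E3 × Conf n => (i.insertNth p.1 p.2 : Conf (n + 1))) :=
      (MeasurableEquiv.piFinSuccAbove (fun _ : Fin (n + 1) => E3) i).symm.measurable
    have h2 : Measurable (fun p : E3 × Conf n => ((i.insertNth p.1 p.2 : Conf (n + 1)) i)) :=
      (measurable_pi_apply i).comp h1
    have h3 : Measurable (fun p : E3 × Conf n =>
        ((i.insertNth p.1 p.2 : Conf (n + 1)) (i.succAbove j'))) :=
      (measurable_pi_apply (i.succAbove j')).comp h1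
    exact (((h2.sub h3).norm.inv).pow_const 2).mul (hG.comp h1)
  · refine Filter.Eventually.of_forall fun p => ?_
    rw [Real.norm_eq_abs, abs_mul, abs_of_nonneg (sq_nonneg _), Fin.insertNth_apply_same,
      Fin.insertNth_apply_succAbove]
    by_cases h0 : (i.insertNth p.1 p.2 : Conf (n + 1)) ∈ S
    · have h1 := mem_closedBall_zero_iff.1 (hR h0)
      obtain ⟨h2, h3⟩ := aux_HC1_norm i p.1 p.2
      have h4 : ‖p.1 - p.2 j'‖ ≤ 2 * R := by
        have := norm_sub_le p.1 (p.2 j')
        have := norm_le_pi_norm p.2 j'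
        linarith
      rw [Set.indicator_of_mem (mem_closedBall_zero_iff.2 h4),
        Set.indicator_of_mem (mem_closedBall_zero_iff.2 (h3.trans h1))]
      exact mul_le_mul_of_nonneg_left (hb _) (sq_nonneg _)
    · rw [hs _ h0, abs_zero, mul_zero]
      refine mul_nonneg (Set.indicator_nonneg (fun _ _ => sq_nonneg _) _)
        (Set.indicator_nonneg (fun _ _ => hC) _)

end Ion
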