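import Pool.Agent.Lib.MP_69e010_mp.H.HC1

/-!
# JOB HC1 / HC2 (stream H of MP_69e010_mp): integrability of the Coulomb singularities

* `integrableOn_inv_sq`: `∫_{|x|<R} |x|^{-2} dx` is finite in dimension three.  Possible proofs: polar coordinates
  (`MeasureTheory.integrable_fun_norm_addHaar`: `∫ f ‖x‖ = 3 vol(B_1) ∫_0^∞ r^2 f(r) dr`), or dyadic shells
  (`‖x‖ ∈ [2^{-k-1} R, 2^{-k} R)` has volume `<= C 8^{-k}`).
* `integrable_inv_sq_mul`: `G` bounded by `C`, measurable and zero outside a compact set, hence outside `{‖X‖ <= R}`.  Write (if `N = n+1`)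
  `Conf N = E3 x Conf n` (`integrable_insert`) and dominate by the product function
  `C (‖x‖⁻¹)^2 1_{‖x‖ <= R} * 1_{‖Y‖ <= R}` (`Integrable.mul_prod`).
* pairs: apply `integral_shear` to `H X = (‖X i‖⁻¹)^2 * G (update X i (X i + X j))`... (or dominate for fixed `x_j` by translation).
* first powers: `‖x‖⁻¹ <= 1 + (‖x‖⁻¹)^2`.
-/

open MeasureTheory Metric Finset Filter Topology

noncomputable section

namespace Ion

variable {N : ℕ}

/-- the elementary domination `a ≤ 1 + a ^ 2` -/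
theorem aux_HC2_le (a : ℝ) : a ≤ 1 + a ^ 2 := by
  nlinarith [sq_nonneg (a - 1), sq_nonneg a]

/-- the general domination step for the first powers -/
theorem aux_HC2_dom {G r : Conf N → ℝ} (hr : Measurable r) (hr0 : ∀ X, 0 ≤ r X)
    (hG : Measurable G) (hG1 : Integrable G) (hG2 : Integrable (fun X => (r X) ^ 2 * G X)) :
    Integrable (fun X => r X * G X) := by
  refine Integrable.mono' (hG1.norm.add hG2.norm) ((hr.mul hG).aestronglyMeasurable) ?_
  refine ae_of_all _ (fun X => ?_)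
  simp only [Pi.add_apply, Real.norm_eq_abs, abs_mul]
  rw [abs_of_nonneg (hr0 X), abs_of_nonneg (sq_nonneg (r X))]
  have h1 := aux_HC2_le (r X)
  have h2 := abs_nonneg (G X)
  nlinarith [mul_le_mul_of_nonneg_right h1 h2]

theorem integrable_inv_mul {G : Conf N → ℝ} (hG : Measurable G) {C : ℝ}
    (hb : ∀ X, |G X| ≤ C) {S : Set (Conf N)} (hS : IsCompact S) (hs : ∀ X, X ∉ S → G X = 0)
    (i : Fin N) : Integrable (fun X => ‖X i‖⁻¹ * G X) := by
  have hm : Measurable (fun X : Conf N => ‖X i‖⁻¹) := (measurable_pi_apply i).norm.inv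
  exact aux_HC2_dom hm (fun X => inv_nonneg.mpr (norm_nonneg _)) hG
    (integrable_of_bdd_supp hG hb hS hs) (integrable_inv_sq_mul hG hb hS hs i)

theorem integrable_inv_mul_pair {G : Conf N → ℝ} (hG : Measurable G) {C : ℝ}
    (hb : ∀ X, |G X| ≤ C) {S : Set (Conf N)} (hS : IsCompact S) (hs : ∀ X, X ∉ S → G X = 0)
    {i j : Fin N} (hij : i ≠ j) : Integrable (fun X => ‖X i - X j‖⁻¹ * G X) := by
  have hm : Measurable (fun X : Conf N => ‖X i - X j‖⁻¹) :=
    ((measurable_pi_apply i).sub (measurable_pi_apply j)).norm.inv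
  exact aux_HC2_dom hm (fun X => inv_nonneg.mpr (norm_nonneg _)) hG
    (integrable_of_bdd_supp hG hb hS hs) (integrable_inv_sq_mul_pair hG hb hS hs hij)

/-- the square of a Lipschitz function of compact support is measurable, bounded and compactly supported -/
theorem aux_HC2_sq {F : Conf N → ℝ} (hF : LipC F) :
    Measurable (fun X => (F X) ^ 2) ∧ (∃ C : ℝ, ∀ X, |(F X) ^ 2| ≤ C) ∧
      ∀ X, X ∉ tsupport F → (F X) ^ 2 = 0 := by
  refine ⟨hF.cont.measurable.pow_const 2, ?_, ?_⟩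
  · obtain ⟨C, hC0, hC⟩ := hF.bdd
    refine ⟨C ^ 2, fun X => ?_⟩
    rw [abs_pow]
    exact pow_le_pow_left₀ (abs_nonneg _) (hC X) 2
  · intro X hX
    rw [image_eq_zero_of_notMem_tsupport hX]
    norm_num

theorem aux_HC2_Vee {F : Conf N → ℝ} (hF : LipC F) :
    Integrable (fun X => Vee X * (F X) ^ 2) := by
  obtain ⟨hm, ⟨C, hC⟩, hz⟩ := aux_HC2_sq hF
  have hsup : IsCompact (tsupport F) := hF.2
  have heq : (fun X : Conf N => Vee X * (F X) ^ 2) = fun X =>
      ∑ i, ∑ j ∈ univ.filter (fun j => i < j), ‖X i - X j‖⁻¹ * (F X) ^ 2 := by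
    funext X
    unfold Vee
    rw [Finset.sum_mul]
    refine Finset.sum_congr rfl (fun i _ => ?_)
    rw [Finset.sum_mul]
  rw [heq]
  refine integrable_finsetSum _ (fun i _ => ?_)
  refine integrable_finsetSum _ (fun j hj => ?_)
  have hij : i ≠ j := ne_of_lt (Finset.mem_filter.mp hj).2
  exact integrable_inv_mul_pair hm hC hsup hz hij

theorem aux_HC2_Ven {F : Conf N → ℝ} (hF : LipC F) :
    Integrable (fun X => Ven X * (F X) ^ 2) := by
  obtain ⟨hm, ⟨C, hC⟩, hz⟩ := aux_HC2_sq hF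
  have hsup : IsCompact (tsupport F) := hF.2
  have heq : (fun X : Conf N => Ven X * (F X) ^ 2) = fun X =>
      ∑ i, ‖X i‖⁻¹ * (F X) ^ 2 := by
    funext X
    unfold Ven
    rw [Finset.sum_mul]
  rw [heq]
  refine integrable_finsetSum _ (fun i _ => ?_)
  exact integrable_inv_mul hm hC hsup hz i

theorem LipC.integrable_V {F : Conf N → ℝ} (hF : LipC F) (z : ℝ) :
    Integrable (fun X => V z X * (F X) ^ 2) := by
  have h1 := (aux_HC2_Vee hF).sub ((aux_HC2_Ven hF).const_mul z)
  refine h1.congr (ae_of_all _ (fun X => ?_))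
  simp only [Pi.sub_apply]
  unfold V
  ring

theorem LipC.integrable_Vee {F : Conf N → ℝ} (hF : LipC F) :
    Integrable (fun X => Vee X * (F X) ^ 2) := by
  exact aux_HC2_Vee hF

theorem LipC.integrable_Ven {F : Conf N → ℝ} (hF : LipC F) :
    Integrable (fun X => Ven X * (F X) ^ 2) := by
  exact aux_HC2_Ven hF

end Ion
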