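import Mathlib

/-!
# JOB HD (stream H of MP_69e010_mp): Poincare inequality on a ball of `ℝ³`

`∫_B u² - |B|⁻¹ (∫_B u)² = (1/(2|B|)) ∫∫_{B x B} (u x - u x')²` (expand, Fubini).
For all `(x, x')`: with `z_t = x + t (x' - x)`, the function `t ↦ u z_t` is Lipschitz, hence absolutely continuous,
so `u x' - u x = ∫_0^1 deriv (fun t => u z_t) t dt` and (Cauchy-Schwarz) `(u x' - u x)² <= ∫_0^1 (deriv (fun t => u z_t) t)² dt`.
If `u` is differentiable at `z_t` then the square of the derivative is at most `4 l² D(z_t)`, `D = ∑_c (∂_c u)²`.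
For fixed `t <= 1/2`: `∫∫_{B x B} D(z_t) dx dx' <= (1-t)^{-3} |B| ∫_B D <= 8 |B| ∫_B D` (substitute `z = (1-t) x + t x'` for fixed `x'`),
for `t >= 1/2` use the variable `x'`, factor `t^{-3} <= 8`.  Total: `∫∫ (u x - u x')² <= 32 l² |B| ∫_B D`.
-/

open MeasureTheory Metric Finset Filter Topology

noncomputable section

namespace Ion

/-- the squared length of the gradient -/
def aux_HD_D (u : EuclideanSpace ℝ (Fin 3) → ℝ) (z : EuclideanSpace ℝ (Fin 3)) : ℝ :=
  ∑ c, (fderiv ℝ u z (EuclideanSpace.single c (1 : ℝ))) ^ 2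

theorem aux_HD_D_nonneg (u : EuclideanSpace ℝ (Fin 3) → ℝ) (z : EuclideanSpace ℝ (Fin 3)) :
    0 ≤ aux_HD_D u z := Finset.sum_nonneg (fun _ _ => sq_nonneg _)

theorem aux_HD_D_meas (u : EuclideanSpace ℝ (Fin 3) → ℝ) : Measurable (aux_HD_D u) := by
  unfold aux_HD_D
  exact Finset.measurable_sum _ (fun c _ => (measurable_fderiv_apply_const ℝ u _).pow_const 2)

theorem aux_HD_D_le {u : EuclideanSpace ℝ (Fin 3) → ℝ} {K : NNReal} (hu : LipschitzWith K u)
    (z : EuclideanSpace ℝ (Fin 3)) : aux_HD_D u z ≤ 3 * (K : ℝ) ^ 2 := by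
  unfold aux_HD_D
  have h : ∀ c ∈ (Finset.univ : Finset (Fin 3)),
      (fderiv ℝ u z (EuclideanSpace.single c (1 : ℝ))) ^ 2 ≤ (K : ℝ) ^ 2 := by
    intro c _
    have h1 : ‖fderiv ℝ u z (EuclideanSpace.single c (1 : ℝ))‖ ≤ (K : ℝ) := by
      refine (ContinuousLinearMap.le_opNorm _ _).trans ?_
      have h2 : ‖(EuclideanSpace.single c (1 : ℝ) : EuclideanSpace ℝ (Fin 3))‖ = 1 := by simp
      rw [h2, mul_one]
      exact norm_fderiv_le_of_lipschitz ℝ hu
    rw [Real.norm_eq_abs] at h1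
    have := sq_le_sq' (by linarith [abs_nonneg (fderiv ℝ u z (EuclideanSpace.single c (1 : ℝ)))]) h1
    rwa [sq_abs] at this
  calc _ ≤ ∑ c : Fin 3, (K : ℝ) ^ 2 := Finset.sum_le_sum h
    _ = _ := by simp

theorem aux_HD_line {u : EuclideanSpace ℝ (Fin 3) → ℝ} {K : NNReal} (hu : LipschitzWith K u)
    (x v : EuclideanSpace ℝ (Fin 3)) :
    ENNReal.ofReal ((u (x + v) - u x) ^ 2)
      ≤ ∫⁻ t in Set.Ioc (0 : ℝ) 1,
        ENNReal.ofReal ((deriv (fun s : ℝ => u (x + s • v)) t) ^ 2) := by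
  set g : ℝ → ℝ := fun s => u (x + s • v) with hg
  have hl : LipschitzWith (K * ‖v‖₊) g := by
    refine LipschitzWith.of_dist_le_mul (fun s t => ?_)
    refine (hu.dist_le_mul _ _).trans ?_
    rw [dist_add_left, NNReal.coe_mul, mul_assoc]
    gcongr
    rw [dist_eq_norm, dist_eq_norm, ← sub_smul, norm_smul, mul_comm]
    simp
  have h1 : ∫ t in (0 : ℝ)..1, deriv g t = g 1 - g 0 :=
    (hl.lipschitzOnWith.absolutelyContinuousOnInterval).integral_deriv_eq_sub
  rw [intervalIntegral.integral_of_le zero_le_one] at h1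
  have hb : ∀ t, |deriv g t| ≤ (K : ℝ) * ‖v‖ := by
    intro t
    have := norm_deriv_le_of_lipschitz hl (x₀ := t)
    simpa using this
  have hm : Measurable (deriv g) := measurable_deriv g
  have hfi : Integrable (deriv g) (volume.restrict (Set.Ioc (0 : ℝ) 1)) := by
    refine Integrable.mono' (integrable_const ((K : ℝ) * ‖v‖)) hm.aestronglyMeasurable ?_
    exact Eventually.of_forall (fun t => by rw [Real.norm_eq_abs]; exact hb t)
  have hf2 : Integrable (fun t => (deriv g t) ^ 2) (volume.restrict (Set.Ioc (0 : ℝ) 1)) := by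
    refine Integrable.mono' (integrable_const (((K : ℝ) * ‖v‖) ^ 2))
      (hm.pow_const 2).aestronglyMeasurable ?_
    refine Eventually.of_forall (fun t => ?_)
    rw [Real.norm_eq_abs, abs_of_nonneg (sq_nonneg _), ← sq_abs]
    exact pow_le_pow_left₀ (abs_nonneg _) (hb t) 2
  have hsq : (u (x + v) - u x) ^ 2 ≤ ∫ t in Set.Ioc (0 : ℝ) 1, (deriv g t) ^ 2 := by
    set a : ℝ := g 1 - g 0 with ha
    have ha' : u (x + v) - u x = a := by simp [ha, hg]
    rw [ha']
    have h0 : 0 ≤ ∫ t in Set.Ioc (0 : ℝ) 1, (deriv g t - a) ^ 2 :=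
      integral_nonneg (fun t => sq_nonneg _)
    have h2 : ∫ t in Set.Ioc (0 : ℝ) 1, (deriv g t - a) ^ 2
        = (∫ t in Set.Ioc (0 : ℝ) 1, (deriv g t) ^ 2) - 2 * a * (∫ t in Set.Ioc (0 : ℝ) 1, deriv g t)
          + a ^ 2 := by
      have h3 : ∀ t, (deriv g t - a) ^ 2 = (deriv g t) ^ 2 - 2 * a * deriv g t + a ^ 2 := by
        intro t; ring
      simp_rw [h3]
      have h4 : Integrable (fun t => (deriv g t) ^ 2 - 2 * a * deriv g t)
          (volume.restrict (Set.Ioc (0 : ℝ) 1)) := hf2.sub (hfi.const_mul _)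
      rw [integral_add h4 (integrable_const _),
        integral_sub hf2 (hfi.const_mul _), integral_const_mul]
      simp
    rw [h2, h1] at h0
    nlinarith
  calc ENNReal.ofReal ((u (x + v) - u x) ^ 2)
      ≤ ENNReal.ofReal (∫ t in Set.Ioc (0 : ℝ) 1, (deriv g t) ^ 2) :=
        ENNReal.ofReal_le_ofReal hsq
    _ = _ := ofReal_integral_eq_lintegral_ofReal hf2 (Eventually.of_forall (fun t => sq_nonneg _))

theorem aux_HD_deriv {u : EuclideanSpace ℝ (Fin 3) → ℝ} (x v : EuclideanSpace ℝ (Fin 3)) (t : ℝ)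
    (hd : DifferentiableAt ℝ u (x + t • v)) :
    (deriv (fun s : ℝ => u (x + s • v)) t) ^ 2 ≤ ‖v‖ ^ 2 * aux_HD_D u (x + t • v) := by
  have h1 : HasDerivAt (fun s : ℝ => x + s • v) v t := by
    have := ((hasDerivAt_id t).smul_const v).const_add x
    simpa using this
  have h2 : HasDerivAt (fun s : ℝ => u (x + s • v)) (fderiv ℝ u (x + t • v) v) t :=
    hd.hasFDerivAt.comp_hasDerivAt t h1
  rw [h2.deriv]
  have h3 : v = ∑ c, v c • (EuclideanSpace.single c (1 : ℝ) : EuclideanSpace ℝ (Fin 3)) := by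
    ext i
    simp [Finset.sum_apply, Pi.single_apply]
  have h4 : ∀ L : EuclideanSpace ℝ (Fin 3) →L[ℝ] ℝ,
      L v = ∑ c, v c * L (EuclideanSpace.single c (1 : ℝ)) := by
    intro L
    conv_lhs => rw [h3]
    rw [map_sum]
    simp only [map_smul, smul_eq_mul]
  rw [h4]
  have h5 : ‖v‖ ^ 2 = ∑ c, (v c) ^ 2 := by
    rw [EuclideanSpace.norm_sq_eq]
    simp
  rw [h5]
  exact Finset.sum_mul_sq_le_sq_mul_sq _ _ _

theorem aux_HD_cov (F : EuclideanSpace ℝ (Fin 3) → ENNReal) (hF : Measurable F) {r : ℝ}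
    (hr : r ≠ 0) (w : EuclideanSpace ℝ (Fin 3)) :
    ∫⁻ x, F (r • x + w) = ENNReal.ofReal |(r ^ 3)⁻¹| * ∫⁻ z, F z := by
  have h1 : Measurable (fun x : EuclideanSpace ℝ (Fin 3) => r • x + w) := by fun_prop
  rw [← lintegral_map hF h1]
  have h2 : Measure.map (fun x : EuclideanSpace ℝ (Fin 3) => r • x + w) volume
      = ENNReal.ofReal |(r ^ 3)⁻¹| • (volume : Measure (EuclideanSpace ℝ (Fin 3))) := by
    have h3 : (fun x : EuclideanSpace ℝ (Fin 3) => r • x + w)
        = (fun x => x + w) ∘ (fun x => r • x) := rfl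
    rw [h3, ← Measure.map_map (by fun_prop) (by fun_prop), Measure.map_addHaar_smul _ hr,
      Measure.map_smul, map_add_right_eq_self]
    simp
  rw [h2, lintegral_smul_measure, smul_eq_mul]

/-- the density with value top where the function is not differentiable -/
def aux_HD_F (u : EuclideanSpace ℝ (Fin 3) → ℝ) (z : EuclideanSpace ℝ (Fin 3)) : ENNReal := by
  classical
  exact if DifferentiableAt ℝ u z then ENNReal.ofReal (aux_HD_D u z) else ⊤

theorem aux_HD_F_meas (u : EuclideanSpace ℝ (Fin 3) → ℝ) : Measurable (aux_HD_F u) := by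
  classical
  unfold aux_HD_F
  exact Measurable.ite (measurableSet_of_differentiableAt ℝ u)
    (aux_HD_D_meas u).ennreal_ofReal measurable_const

theorem aux_HD_F_int {u : EuclideanSpace ℝ (Fin 3) → ℝ} {K : NNReal} (hu : LipschitzWith K u)
    (s : Set (EuclideanSpace ℝ (Fin 3))) :
    ∫⁻ z in s, aux_HD_F u z = ∫⁻ z in s, ENNReal.ofReal (aux_HD_D u z) := by
  refine lintegral_congr_ae (ae_restrict_of_ae ?_)
  filter_upwards [hu.ae_differentiableAt] with z hz
  simp [aux_HD_F, hz]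

/-- one variable integrated, general affine position -/
theorem aux_HD_one {u : EuclideanSpace ℝ (Fin 3) → ℝ} {K : NNReal} (hu : LipschitzWith K u)
    (y : EuclideanSpace ℝ (Fin 3)) {l : ℝ} (hl : 0 < l) {r : ℝ} (hr : 1 / 2 ≤ r)
    (w : EuclideanSpace ℝ (Fin 3)) (Φ : EuclideanSpace ℝ (Fin 3) → ENNReal)
    (hΦ : ∀ x ∈ ball y l, Φ x ≤ ENNReal.ofReal (4 * l ^ 2) *
      (ball y l).indicator (aux_HD_F u) (r • x + w)) :
    ∫⁻ x in ball y l, Φ x
      ≤ ENNReal.ofReal (32 * l ^ 2) * ∫⁻ z in ball y l, ENNReal.ofReal (aux_HD_D u z) := by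
  have hr0 : 0 < r := by linarith
  calc ∫⁻ x in ball y l, Φ x
      ≤ ∫⁻ x in ball y l, ENNReal.ofReal (4 * l ^ 2) *
          (ball y l).indicator (aux_HD_F u) (r • x + w) :=
        setLIntegral_mono' measurableSet_ball hΦ
    _ ≤ ∫⁻ x, ENNReal.ofReal (4 * l ^ 2) *
          (ball y l).indicator (aux_HD_F u) (r • x + w) := setLIntegral_le_lintegral _ _
    _ = ENNReal.ofReal (4 * l ^ 2) * ∫⁻ x, (ball y l).indicator (aux_HD_F u) (r • x + w) := by
        rw [lintegral_const_mul']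
        exact ENNReal.ofReal_ne_top
    _ = ENNReal.ofReal (4 * l ^ 2) * (ENNReal.ofReal |(r ^ 3)⁻¹| *
          ∫⁻ z in ball y l, ENNReal.ofReal (aux_HD_D u z)) := by
        rw [aux_HD_cov _ ((aux_HD_F_meas u).indicator measurableSet_ball) hr0.ne' w,
          lintegral_indicator measurableSet_ball, aux_HD_F_int hu]
    _ ≤ ENNReal.ofReal (4 * l ^ 2) * (ENNReal.ofReal 8 *
          ∫⁻ z in ball y l, ENNReal.ofReal (aux_HD_D u z)) := by
        gcongr
        rw [abs_of_pos (by positivity)]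
        have h1 : (1 / 2 : ℝ) ^ 3 ≤ r ^ 3 := pow_le_pow_left₀ (by norm_num) hr 3
        have h2 : (r ^ 3)⁻¹ ≤ ((1 / 2 : ℝ) ^ 3)⁻¹ := inv_anti₀ (by norm_num) h1
        calc (r ^ 3)⁻¹ ≤ ((1 / 2 : ℝ) ^ 3)⁻¹ := h2
          _ = 8 := by norm_num
    _ = _ := by
        rw [← mul_assoc, ← ENNReal.ofReal_mul (by positivity)]
        congr 2
        ring

theorem aux_HD_pt {u : EuclideanSpace ℝ (Fin 3) → ℝ}
    (y : EuclideanSpace ℝ (Fin 3)) {l : ℝ} (hl : 0 < l) {t : ℝ} (ht0 : 0 ≤ t) (ht1 : t ≤ 1)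
    (x x' : EuclideanSpace ℝ (Fin 3)) (hx : x ∈ ball y l) (hx' : x' ∈ ball y l) :
    ENNReal.ofReal ((deriv (fun s : ℝ => u (x + s • (x' - x))) t) ^ 2)
      ≤ ENNReal.ofReal (4 * l ^ 2) *
        (ball y l).indicator (aux_HD_F u) (x + t • (x' - x)) := by
  classical
  have hz : x + t • (x' - x) ∈ ball y l := by
    have h1 := (convex_ball y l) hx hx' (by linarith : (0 : ℝ) ≤ 1 - t) ht0 (by ring)
    have h2 : (1 - t) • x + t • x' = x + t • (x' - x) := by
      rw [sub_smul, smul_sub, one_smul]; abel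
    rwa [h2] at h1
  rw [Set.indicator_of_mem hz]
  unfold aux_HD_F
  by_cases hd : DifferentiableAt ℝ u (x + t • (x' - x))
  · rw [if_pos hd, ← ENNReal.ofReal_mul (by positivity)]
    apply ENNReal.ofReal_le_ofReal
    refine (aux_HD_deriv x (x' - x) t hd).trans ?_
    refine mul_le_mul_of_nonneg_right ?_ (aux_HD_D_nonneg _ _)
    have h3 : ‖x' - x‖ ≤ 2 * l := by
      have h4 : dist x' x ≤ dist x' y + dist x y := dist_triangle_right _ _ _
      rw [mem_ball] at hx hx'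
      rw [← dist_eq_norm]
      linarith
    calc ‖x' - x‖ ^ 2 ≤ (2 * l) ^ 2 := pow_le_pow_left₀ (norm_nonneg _) h3 2
      _ = 4 * l ^ 2 := by ring
  · rw [if_neg hd, ENNReal.mul_top]
    · exact le_top
    · simp only [ne_eq, ENNReal.ofReal_eq_zero, not_le]
      positivity

theorem aux_HD_left {u : EuclideanSpace ℝ (Fin 3) → ℝ} {K : NNReal} (hu : LipschitzWith K u)
    (y : EuclideanSpace ℝ (Fin 3)) {l : ℝ} (hl : 0 < l) {t : ℝ} (ht0 : 0 ≤ t) (ht1 : t ≤ 1 / 2)
    (x' : EuclideanSpace ℝ (Fin 3)) (hx' : x' ∈ ball y l) :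
    ∫⁻ x in ball y l, ENNReal.ofReal ((deriv (fun s : ℝ => u (x + s • (x' - x))) t) ^ 2)
      ≤ ENNReal.ofReal (32 * l ^ 2) * ∫⁻ z in ball y l, ENNReal.ofReal (aux_HD_D u z) := by
  refine aux_HD_one hu y hl (r := 1 - t) (by linarith) (t • x') _ (fun x hx => ?_)
  have h1 := aux_HD_pt (u := u) y hl ht0 (by linarith) x x' hx hx'
  have h2 : (1 - t) • x + t • x' = x + t • (x' - x) := by
    rw [sub_smul, smul_sub, one_smul]; abel
  rw [h2]
  exact h1

theorem aux_HD_right {u : EuclideanSpace ℝ (Fin 3) → ℝ} {K : NNReal} (hu : LipschitzWith K u)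
    (y : EuclideanSpace ℝ (Fin 3)) {l : ℝ} (hl : 0 < l) {t : ℝ} (ht0 : 1 / 2 ≤ t) (ht1 : t ≤ 1)
    (x : EuclideanSpace ℝ (Fin 3)) (hx : x ∈ ball y l) :
    ∫⁻ x' in ball y l, ENNReal.ofReal ((deriv (fun s : ℝ => u (x + s • (x' - x))) t) ^ 2)
      ≤ ENNReal.ofReal (32 * l ^ 2) * ∫⁻ z in ball y l, ENNReal.ofReal (aux_HD_D u z) := by
  refine aux_HD_one hu y hl (r := t) (by linarith) ((1 - t) • x) _ (fun x' hx' => ?_)
  have h1 := aux_HD_pt (u := u) y hl (by linarith) ht1 x x' hx hx'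
  have h2 : t • x' + (1 - t) • x = x + t • (x' - x) := by
    rw [sub_smul, smul_sub, one_smul]; abel
  rw [h2]
  exact h1

theorem aux_HD_meas {u : EuclideanSpace ℝ (Fin 3) → ℝ} {K : NNReal} (hu : LipschitzWith K u) :
    Measurable (fun q : (EuclideanSpace ℝ (Fin 3) × EuclideanSpace ℝ (Fin 3)) × ℝ =>
      ENNReal.ofReal ((deriv (fun s : ℝ => u (q.1.1 + s • (q.1.2 - q.1.1))) q.2) ^ 2)) := by
  have hc := hu.continuous
  have h1 : Continuous (fun q : (EuclideanSpace ℝ (Fin 3) × EuclideanSpace ℝ (Fin 3)) × ℝ =>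
    q.1.1 + q.2 • (q.1.2 - q.1.1)) := by fun_prop
  have hfc : Continuous (Function.uncurry
      (fun (p : EuclideanSpace ℝ (Fin 3) × EuclideanSpace ℝ (Fin 3)) (s : ℝ) =>
        u (p.1 + s • (p.2 - p.1)))) := hc.comp h1
  exact ((measurable_deriv_with_param hfc).pow_const 2).ennreal_ofReal

theorem aux_HD_slice {u : EuclideanSpace ℝ (Fin 3) → ℝ} {K : NNReal} (hu : LipschitzWith K u)
    (y : EuclideanSpace ℝ (Fin 3)) {l : ℝ} (hl : 0 < l) {t : ℝ} (ht : t ∈ Set.Ioc (0 : ℝ) 1) :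
    ∫⁻ p, ENNReal.ofReal ((deriv (fun s : ℝ => u (p.1 + s • (p.2 - p.1))) t) ^ 2)
        ∂((volume.restrict (ball y l)).prod (volume.restrict (ball y l)))
      ≤ ENNReal.ofReal (32 * l ^ 2) * (∫⁻ z in ball y l, ENNReal.ofReal (aux_HD_D u z))
        * volume (ball y l) := by
  have hg : Measurable (fun p : EuclideanSpace ℝ (Fin 3) × EuclideanSpace ℝ (Fin 3) => (p, t)) :=
    measurable_id.prodMk measurable_const
  have hmt : Measurable (fun p : EuclideanSpace ℝ (Fin 3) × EuclideanSpace ℝ (Fin 3) =>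
      ENNReal.ofReal ((deriv (fun s : ℝ => u (p.1 + s • (p.2 - p.1))) t) ^ 2)) := by
    have h0 := Measurable.comp (aux_HD_meas hu) hg
    exact h0
  have hconst : ∀ c : ENNReal, ∫⁻ _ in ball y l, c = c * volume (ball y l) := by
    intro c
    rw [setLIntegral_const]
  rw [← hconst]
  rcases le_total t (1 / 2) with htt | htt
  · rw [lintegral_prod_symm _ hmt.aemeasurable]
    exact setLIntegral_mono' measurableSet_ball
      (fun x' hx' => aux_HD_left hu y hl ht.1.le htt x' hx')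
  · rw [lintegral_prod _ hmt.aemeasurable]
    exact setLIntegral_mono' measurableSet_ball
      (fun x hx => aux_HD_right hu y hl htt ht.2 x hx)

theorem aux_HD_double {u : EuclideanSpace ℝ (Fin 3) → ℝ} {K : NNReal} (hu : LipschitzWith K u)
    (y : EuclideanSpace ℝ (Fin 3)) {l : ℝ} (hl : 0 < l) :
    ∫⁻ p, ENNReal.ofReal ((u p.2 - u p.1) ^ 2)
        ∂((volume.restrict (ball y l)).prod (volume.restrict (ball y l)))
      ≤ ENNReal.ofReal (32 * l ^ 2) * (∫⁻ z in ball y l, ENNReal.ofReal (aux_HD_D u z))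
        * volume (ball y l) := by
  have h1 : ∫⁻ p, ENNReal.ofReal ((u p.2 - u p.1) ^ 2)
        ∂((volume.restrict (ball y l)).prod (volume.restrict (ball y l)))
      ≤ ∫⁻ p, (∫⁻ t in Set.Ioc (0 : ℝ) 1,
          ENNReal.ofReal ((deriv (fun s : ℝ => u (p.1 + s • (p.2 - p.1))) t) ^ 2))
        ∂((volume.restrict (ball y l)).prod (volume.restrict (ball y l))) := by
    refine lintegral_mono (fun p => ?_)
    have := aux_HD_line hu p.1 (p.2 - p.1)
    rw [add_sub_cancel] at this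
    exact this
  have h2 := lintegral_lintegral_swap (μ := (volume.restrict (ball y l)).prod
    (volume.restrict (ball y l))) (ν := volume.restrict (Set.Ioc (0 : ℝ) 1))
    (f := fun p t => ENNReal.ofReal ((deriv (fun s : ℝ => u (p.1 + s • (p.2 - p.1))) t) ^ 2))
    (aux_HD_meas hu).aemeasurable
  rw [h2] at h1
  refine h1.trans ?_
  have h3 := setLIntegral_mono' (μ := volume) (s := Set.Ioc (0 : ℝ) 1) measurableSet_Ioc
    (fun t ht => aux_HD_slice hu y hl ht)
  refine h3.trans ?_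
  rw [setLIntegral_const]
  simp

theorem poincare_ball {u : EuclideanSpace ℝ (Fin 3) → ℝ} {K : NNReal} (hu : LipschitzWith K u)
    (y : EuclideanSpace ℝ (Fin 3)) {l : ℝ} (hl : 0 < l) :
    (∫ x in ball y l, (u x) ^ 2) - (volume.real (ball y l))⁻¹ * (∫ x in ball y l, u x) ^ 2
      ≤ 16 * l ^ 2 * ∫ x in ball y l, ∑ c, (fderiv ℝ u x (EuclideanSpace.single c (1 : ℝ))) ^ 2 := by
  change _ ≤ 16 * l ^ 2 * ∫ x in ball y l, aux_HD_D u x
  have hvt : volume (ball y l) ≠ ⊤ := measure_ball_lt_top.ne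
  have hv0 : 0 < volume (ball y l) := measure_ball_pos _ _ hl
  have hm0 : 0 < volume.real (ball y l) := ENNReal.toReal_pos hv0.ne' hvt
  have : IsFiniteMeasure (volume.restrict (ball y l)) :=
    ⟨by rw [Measure.restrict_apply_univ]; exact measure_ball_lt_top⟩
  have hbd : ∀ x ∈ ball y l, |u x| ≤ |u y| + (K : ℝ) * l := by
    intro x hx
    have h1 := hu.dist_le_mul x y
    rw [Real.dist_eq] at h1
    rw [mem_ball] at hx
    have h2 : (K : ℝ) * dist x y ≤ (K : ℝ) * l := by gcongr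
    have h3 : |u x| ≤ |u x - u y| + |u y| := by
      have := abs_add_le (u x - u y) (u y)
      simpa using this
    linarith
  have hui : Integrable u (volume.restrict (ball y l)) := by
    refine Integrable.mono' (integrable_const (|u y| + (K : ℝ) * l))
      hu.continuous.aestronglyMeasurable ?_
    refine (ae_restrict_iff' measurableSet_ball).2 (Eventually.of_forall (fun x hx => ?_))
    rw [Real.norm_eq_abs]; exact hbd x hx
  have hu2 : Integrable (fun x => (u x) ^ 2) (volume.restrict (ball y l)) := by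
    refine Integrable.mono' (integrable_const ((|u y| + (K : ℝ) * l) ^ 2))
      (hu.continuous.pow 2).aestronglyMeasurable ?_
    refine (ae_restrict_iff' measurableSet_ball).2 (Eventually.of_forall (fun x hx => ?_))
    rw [Real.norm_eq_abs, abs_of_nonneg (sq_nonneg _), ← sq_abs]
    exact pow_le_pow_left₀ (abs_nonneg _) (hbd x hx) 2
  have hDi : Integrable (aux_HD_D u) (volume.restrict (ball y l)) := by
    refine Integrable.mono' (integrable_const (3 * (K : ℝ) ^ 2))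
      (aux_HD_D_meas u).aestronglyMeasurable ?_
    refine Eventually.of_forall (fun x => ?_)
    rw [Real.norm_eq_abs, abs_of_nonneg (aux_HD_D_nonneg _ _)]
    exact aux_HD_D_le hu x
  have h1 := aux_HD_double hu y hl
  rw [← ofReal_integral_eq_lintegral_ofReal hDi
    (Eventually.of_forall (fun x => aux_HD_D_nonneg u x))] at h1
  set μ : Measure (EuclideanSpace ℝ (Fin 3)) := volume.restrict (ball y l) with hμ
  have hμr : μ.real Set.univ = volume.real (ball y l) := by simp [hμ, measureReal_def]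
  have hone : Integrable (fun _ : EuclideanSpace ℝ (Fin 3) => (1 : ℝ)) μ := integrable_const _
  have ha := hone.mul_prod hu2
  have hb := hui.mul_prod hui
  have hc := hu2.mul_prod hone
  have hexp : ∀ p : EuclideanSpace ℝ (Fin 3) × EuclideanSpace ℝ (Fin 3),
      (u p.2 - u p.1) ^ 2 = (1 * (u p.2) ^ 2 + (u p.1) ^ 2 * 1) - 2 * (u p.1 * u p.2) := by
    intro p; ring
  have hint : Integrable (fun p : EuclideanSpace ℝ (Fin 3) × EuclideanSpace ℝ (Fin 3) =>
      (u p.2 - u p.1) ^ 2) (μ.prod μ) := by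
    simp_rw [hexp]
    exact (ha.add hc).sub (hb.const_mul 2)
  have hval : ∫ p, (u p.2 - u p.1) ^ 2 ∂(μ.prod μ)
      = 2 * volume.real (ball y l) * (∫ x, (u x) ^ 2 ∂μ) - 2 * (∫ x, u x ∂μ) ^ 2 := by
    simp_rw [hexp]
    have hac : Integrable (fun p : EuclideanSpace ℝ (Fin 3) × EuclideanSpace ℝ (Fin 3) =>
        1 * (u p.2) ^ 2 + (u p.1) ^ 2 * 1) (μ.prod μ) := ha.add hc
    have e0 : ∫ _ : EuclideanSpace ℝ (Fin 3), (1 : ℝ) ∂μ = volume.real (ball y l) := by
      rw [integral_const, hμr, smul_eq_mul, mul_one]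
    have e1 : ∫ p : EuclideanSpace ℝ (Fin 3) × EuclideanSpace ℝ (Fin 3),
        1 * (u p.2) ^ 2 ∂(μ.prod μ) = volume.real (ball y l) * ∫ x, (u x) ^ 2 ∂μ := by
      rw [integral_prod_mul (fun _ => (1 : ℝ)) (fun x => (u x) ^ 2), e0]
    have e2 : ∫ p : EuclideanSpace ℝ (Fin 3) × EuclideanSpace ℝ (Fin 3),
        (u p.1) ^ 2 * 1 ∂(μ.prod μ) = (∫ x, (u x) ^ 2 ∂μ) * volume.real (ball y l) := by
      rw [integral_prod_mul (fun x => (u x) ^ 2) (fun _ => (1 : ℝ)), e0]
    have e3 : ∫ p : EuclideanSpace ℝ (Fin 3) × EuclideanSpace ℝ (Fin 3),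
        2 * (u p.1 * u p.2) ∂(μ.prod μ) = 2 * ((∫ x, u x ∂μ) * ∫ x, u x ∂μ) := by
      rw [integral_const_mul, integral_prod_mul u u]
    rw [integral_sub hac (hb.const_mul 2), integral_add ha hc, e1, e2, e3]
    ring
  rw [← ofReal_integral_eq_lintegral_ofReal hint (Eventually.of_forall (fun p => sq_nonneg _)),
    hval] at h1
  have hD0 : 0 ≤ ∫ x, aux_HD_D u x ∂μ := integral_nonneg (fun x => aux_HD_D_nonneg u x)
  have h2 : (volume (ball y l)) = ENNReal.ofReal (volume.real (ball y l)) := by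
    rw [measureReal_def, ENNReal.ofReal_toReal hvt]
  rw [h2, ← ENNReal.ofReal_mul (by positivity), ← ENNReal.ofReal_mul (by positivity)] at h1
  have h3 := (ENNReal.ofReal_le_ofReal_iff (by positivity)).1 h1
  set m : ℝ := volume.real (ball y l) with hm
  set I : ℝ := ∫ x, aux_HD_D u x ∂μ with hI
  set P : ℝ := ∫ x, (u x) ^ 2 ∂μ with hP
  set Q : ℝ := ∫ x, u x ∂μ with hQ
  have h4 : m * P - Q ^ 2 ≤ 16 * l ^ 2 * I * m := by nlinarith
  have h5 : P - m⁻¹ * Q ^ 2 = m⁻¹ * (m * P - Q ^ 2) := by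
    field_simp
  rw [h5]
  calc m⁻¹ * (m * P - Q ^ 2) ≤ m⁻¹ * (16 * l ^ 2 * I * m) := by gcongr
    _ = 16 * l ^ 2 * I := by field_simp

end Ion
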