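import Pool.Agent.Lib.MP_69e010_mp.H.HI

/-!
# Stream H of MP_69e010_mp: Hardy's inequality, nucleus

Integration by parts against the regularized field `x / (‖x‖² + e)`.
-/

open MeasureTheory Metric Finset Filter Topology

noncomputable section

namespace Ion

variable {N : ℕ}

/-- the regularized field -/
def fld (e : ℝ) (c : Fin 3) (x : E3) : ℝ := x c / (‖x‖ ^ 2 + e)

theorem E3_abs_le (x : E3) (c : Fin 3) : |x c| ≤ ‖x‖ := by
  have := PiLp.norm_apply_le x c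
  simpa using this

theorem fld_diff {e : ℝ} (he : 0 < e) (c : Fin 3) (x : E3) :
    HasFDerivAt (fld e c) ((‖x‖ ^ 2 + e)⁻¹ • (EuclideanSpace.proj c : E3 →L[ℝ] ℝ)
      - (x c * ((‖x‖ ^ 2 + e) ^ 2)⁻¹) • ((2 : ℝ) • (innerSL ℝ x))) x := by
  have h0 : ‖x‖ ^ 2 + e ≠ 0 := by positivity
  have h1 : HasFDerivAt (fun x : E3 => x c) (EuclideanSpace.proj c : E3 →L[ℝ] ℝ) x :=
    (EuclideanSpace.proj c : E3 →L[ℝ] ℝ).hasFDerivAt
  have h2 : HasFDerivAt (fun x : E3 => ‖x‖ ^ 2 + e) ((2 : ℝ) • (innerSL ℝ x)) x := by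
    refine ((hasStrictFDerivAt_norm_sq x).hasFDerivAt.add_const e).congr_fderiv ?_
    ext v
    simp
  have h3 : HasFDerivAt (fun x : E3 => (‖x‖ ^ 2 + e)⁻¹)
      (-((‖x‖ ^ 2 + e) ^ 2)⁻¹ • ((2 : ℝ) • (innerSL ℝ x))) x := by
    have := (hasDerivAt_inv h0).comp_hasFDerivAt x h2
    exact this
  have h4 := h1.mul h3
  have h5 : fld e c = fun x : E3 => x c * (‖x‖ ^ 2 + e)⁻¹ := by
    funext x; rw [fld, div_eq_mul_inv]
  rw [h5]
  refine h4.congr_fderiv ?_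
  ext v
  simp only [add_apply, sub_apply, smul_apply, smul_eq_mul]
  ring

theorem fld_fderiv {e : ℝ} (he : 0 < e) (c : Fin 3) (x : E3) :
    fderiv ℝ (fld e c) x (EuclideanSpace.single c (1 : ℝ))
      = (‖x‖ ^ 2 + e)⁻¹ - 2 * (x c) ^ 2 * ((‖x‖ ^ 2 + e) ^ 2)⁻¹ := by
  rw [(fld_diff he c x).fderiv]
  simp only [sub_apply, smul_apply, smul_eq_mul,
    innerSL_apply_apply, EuclideanSpace.inner_single_right]
  simp
  ring

theorem fld_div {e : ℝ} (he : 0 < e) (x : E3) :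
    (‖x‖ ^ 2 + e)⁻¹ ≤ ∑ c, fderiv ℝ (fld e c) x (EuclideanSpace.single c (1 : ℝ)) := by
  have h0 : 0 < ‖x‖ ^ 2 + e := by positivity
  simp only [fld_fderiv he]
  have h1 : ‖x‖ ^ 2 = ∑ c, (x c) ^ 2 := by
    rw [EuclideanSpace.norm_sq_eq]
    simp
  have h2 : ∑ c : Fin 3, ((‖x‖ ^ 2 + e)⁻¹ - 2 * (x c) ^ 2 * ((‖x‖ ^ 2 + e) ^ 2)⁻¹)
      = 3 * (‖x‖ ^ 2 + e)⁻¹ - 2 * ‖x‖ ^ 2 * ((‖x‖ ^ 2 + e) ^ 2)⁻¹ := by
    rw [Finset.sum_sub_distrib, ← Finset.sum_mul, ← Finset.mul_sum, ← h1]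
    simp
  rw [h2]
  have h3 : ‖x‖ ^ 2 * ((‖x‖ ^ 2 + e) ^ 2)⁻¹ ≤ (‖x‖ ^ 2 + e)⁻¹ := by
    have : ((‖x‖ ^ 2 + e))⁻¹ = (‖x‖ ^ 2 + e) * ((‖x‖ ^ 2 + e) ^ 2)⁻¹ := by
      field_simp
    rw [this]
    apply mul_le_mul_of_nonneg_right _ (by positivity)
    linarith
  linarith

theorem fld_lip {e : ℝ} (he : 0 < e) (c : Fin 3) :
    LipschitzWith (Real.toNNReal (3 / e)) (fld e c) := by
  apply LipschitzWith.of_dist_le_mul
  intro x y
  rw [Real.coe_toNNReal _ (by positivity), Real.dist_eq, dist_eq_norm, fld, fld]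
  have hx : 0 < ‖x‖ ^ 2 + e := by positivity
  have hy : 0 < ‖y‖ ^ 2 + e := by positivity
  have h1 : x c / (‖x‖ ^ 2 + e) - y c / (‖y‖ ^ 2 + e)
      = (x c - y c) / (‖x‖ ^ 2 + e) + y c * ((‖y‖ - ‖x‖) * (‖y‖ + ‖x‖)) / ((‖x‖ ^ 2 + e) * (‖y‖ ^ 2 + e)) := by
    field_simp
    ring
  rw [h1]
  have h2 : |x c - y c| ≤ ‖x - y‖ := by
    have := E3_abs_le (x - y) c
    simpa using this
  have h3 : |‖y‖ - ‖x‖| ≤ ‖x - y‖ := by
    rw [abs_sub_comm]
    exact abs_norm_sub_norm_le x y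
  have h4 : |y c| ≤ ‖y‖ := E3_abs_le y c
  have h5 : |(x c - y c) / (‖x‖ ^ 2 + e)| ≤ 1 / e * ‖x - y‖ := by
    rw [abs_div, abs_of_pos hx]
    have : |x c - y c| / (‖x‖ ^ 2 + e) ≤ ‖x - y‖ / e := by
      apply div_le_div₀ (norm_nonneg _) h2 he
      have := sq_nonneg ‖x‖
      linarith
    calc _ ≤ _ := this
      _ = _ := by ring
  have h6 : |y c * ((‖y‖ - ‖x‖) * (‖y‖ + ‖x‖)) / ((‖x‖ ^ 2 + e) * (‖y‖ ^ 2 + e))|
      ≤ 2 / e * ‖x - y‖ := by
    rw [abs_div, abs_mul, abs_mul, abs_of_pos (mul_pos hx hy), abs_of_nonneg (by positivity : 0 ≤ ‖y‖ + ‖x‖)]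
    rw [div_le_iff₀ (mul_pos hx hy)]
    have h7 : |y c| * (|‖y‖ - ‖x‖| * (‖y‖ + ‖x‖)) ≤ ‖y‖ * (‖x - y‖ * (‖y‖ + ‖x‖)) := by
      gcongr
    refine h7.trans ?_
    have h8 : ‖y‖ * (‖y‖ + ‖x‖) * e ≤ 2 * ((‖x‖ ^ 2 + e) * (‖y‖ ^ 2 + e)) := by
      nlinarith [sq_nonneg (‖y‖ - ‖x‖), mul_nonneg (sq_nonneg ‖x‖) (sq_nonneg ‖y‖), mul_nonneg he.le (sq_nonneg ‖x‖), mul_nonneg he.le (sq_nonneg ‖y‖), mul_nonneg he.le (sq_nonneg (‖y‖ - ‖x‖)), mul_pos he he]
    calc ‖y‖ * (‖x - y‖ * (‖y‖ + ‖x‖)) = (‖y‖ * (‖y‖ + ‖x‖) * e) * (‖x - y‖ / e) := by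
          field_simp
      _ ≤ (2 * ((‖x‖ ^ 2 + e) * (‖y‖ ^ 2 + e))) * (‖x - y‖ / e) := by
          apply mul_le_mul_of_nonneg_right h8 (by positivity)
      _ = _ := by ring
  calc _ ≤ _ := abs_add_le _ _
    _ ≤ 1 / e * ‖x - y‖ + 2 / e * ‖x - y‖ := add_le_add h5 h6
    _ = _ := by ring

/-- the field on configurations -/
theorem fldX_lip {e : ℝ} (he : 0 < e) (c : Fin 3) (i : Fin N) :
    LipschitzWith (Real.toNNReal (3 / e)) (fun X : Conf N => fld e c (X i)) := by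
  have h := (fld_lip he c).comp (LipschitzWith.eval (α := fun _ : Fin N => E3) i)
  rw [mul_one] at h
  exact h

theorem pd_fldX {e : ℝ} (he : 0 < e) (c : Fin 3) (i : Fin N) (X : Conf N) :
    pd i c (fun X : Conf N => fld e c (X i)) X
      = fderiv ℝ (fld e c) (X i) (EuclideanSpace.single c (1 : ℝ)) := by
  have h1 : HasFDerivAt (fun X : Conf N => X i)
      (ContinuousLinearMap.proj (R := ℝ) (φ := fun _ : Fin N => E3) i) X :=
    (ContinuousLinearMap.proj (R := ℝ) (φ := fun _ : Fin N => E3) i).hasFDerivAt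
  have h2 : HasFDerivAt (fld e c) (fderiv ℝ (fld e c) (X i)) (X i) :=
    (fld_diff he c (X i)).differentiableAt.hasFDerivAt
  have h3 := h2.comp X h1
  rw [pd]
  have h4 : fderiv ℝ (fun X : Conf N => fld e c (X i)) X
      = (fderiv ℝ (fld e c) (X i)).comp (ContinuousLinearMap.proj (R := ℝ) (φ := fun _ : Fin N => E3) i) :=
    h3.fderiv
  rw [h4]
  simp

/-- the regularized Hardy inequality -/
theorem hardy_reg {F : Conf N → ℝ} (hF : LipC F) (i : Fin N) {e : ℝ} (he : 0 < e) :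
    Integrable (fun X => (‖X i‖ ^ 2 + e)⁻¹ * (F X) ^ 2) ∧
      ∫ X, (‖X i‖ ^ 2 + e)⁻¹ * (F X) ^ 2 ≤ 4 * ∫ X, gsq i F X := by
  obtain ⟨K, hK⟩ := hF.1
  have hcontn : Continuous (fun X : Conf N => (‖X i‖ ^ 2 + e)⁻¹) := by
    apply Continuous.inv₀ (by fun_prop)
    intro X; positivity
  have hint : Integrable (fun X => (‖X i‖ ^ 2 + e)⁻¹ * (F X) ^ 2) := by
    apply Continuous.integrable_of_hasCompactSupport
    · exact hcontn.mul (hF.cont.pow 2)
    · exact (hF.sq.2).mul_left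
  refine ⟨hint, ?_⟩
  -- integration by parts
  have hibp : ∀ c : Fin 3, ∫ X, pd i c (fun X : Conf N => fld e c (X i)) X * (F X) ^ 2
      = - ∫ X, fld e c (X i) * pd i c (fun X => (F X) ^ 2) X := fun c =>
    integral_pd_mul (fldX_lip he c i) hF.sq i c
  have hcontf : ∀ c : Fin 3, Continuous (fun X : Conf N => fld e c (X i)) := fun c =>
    (fldX_lip he c i).continuous
  have hi1 : ∀ c : Fin 3, Integrable (fun X => pd i c (fun X : Conf N => fld e c (X i)) X * (F X) ^ 2) := by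
    intro c
    obtain ⟨C, hC0, hC⟩ := hF.sq.bdd
    apply integrable_of_bdd_supp (C := (Real.toNNReal (3 / e)) * C)
      ((measurable_pd _ _ _).mul (hF.sq.cont.measurable)) _ hF.2.isCompact
    · intro X hX
      show pd i c (fun X : Conf N => fld e c (X i)) X * (F X) ^ 2 = 0
      rw [image_eq_zero_of_notMem_tsupport hX]
      ring
    · intro X
      show |pd i c (fun X : Conf N => fld e c (X i)) X * (F X) ^ 2| ≤ _
      rw [abs_mul]
      exact mul_le_mul (abs_pd_le (fldX_lip he c i) i c X) (hC X) (abs_nonneg _) (NNReal.coe_nonneg _)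
  have hi2 : ∀ c : Fin 3, Integrable (fun X => fld e c (X i) * pd i c (fun X => (F X) ^ 2) X) := by
    intro c
    obtain ⟨K', hK'⟩ := hF.sq.1
    apply integrable_of_bdd_supp (C := (1 / Real.sqrt e) * K')
      (((hcontf c).measurable).mul (measurable_pd _ _ _)) _ hF.sq.2.isCompact
    · intro X hX
      show fld e c (X i) * pd i c (fun X => (F X) ^ 2) X = 0
      rw [pd_eq_zero hX]
      ring
    · intro X
      show |fld e c (X i) * pd i c (fun X => (F X) ^ 2) X| ≤ _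
      rw [abs_mul]
      refine mul_le_mul ?_ (abs_pd_le hK' i c X) (abs_nonneg _) (by positivity)
      rw [fld, abs_div, abs_of_pos (by positivity : 0 < ‖X i‖ ^ 2 + e)]
      rw [div_le_div_iff₀ (by positivity) (Real.sqrt_pos.mpr he)]
      have h1 : |X i c| ≤ ‖X i‖ := E3_abs_le _ _
      have h2 := Real.sq_sqrt he.le
      have h3 := Real.sqrt_nonneg e
      nlinarith [sq_nonneg (‖X i‖ - Real.sqrt e), norm_nonneg (X i)]
  have hig : Integrable (gsq i F) := hF.integrable_gsq i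
  -- the pointwise lower bound of the left hand side
  have hL : ∫ X, (‖X i‖ ^ 2 + e)⁻¹ * (F X) ^ 2
      ≤ ∑ c : Fin 3, ∫ X, pd i c (fun X : Conf N => fld e c (X i)) X * (F X) ^ 2 := by
    rw [← integral_finsetSum _ (fun c _ => hi1 c)]
    apply integral_mono hint (integrable_finsetSum _ (fun c _ => hi1 c))
    intro X
    have h1 : ∑ c : Fin 3, pd i c (fun X : Conf N => fld e c (X i)) X * (F X) ^ 2
        = (∑ c, fderiv ℝ (fld e c) (X i) (EuclideanSpace.single c (1 : ℝ))) * (F X) ^ 2 := by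
      rw [Finset.sum_mul]
      apply Finset.sum_congr rfl
      intro c _
      rw [pd_fldX he]
    show (‖X i‖ ^ 2 + e)⁻¹ * (F X) ^ 2 ≤ ∑ c : Fin 3, pd i c (fun X : Conf N => fld e c (X i)) X * (F X) ^ 2
    rw [h1]
    exact mul_le_mul_of_nonneg_right (fld_div he (X i)) (sq_nonneg _)
  -- the upper bound
  have hR : ∑ c : Fin 3, - ∫ X, fld e c (X i) * pd i c (fun X => (F X) ^ 2) X
      ≤ ∫ X, ((1 / 2) * ((‖X i‖ ^ 2 + e)⁻¹ * (F X) ^ 2) + 2 * gsq i F X) := by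
    have h1 : ∑ c : Fin 3, - ∫ X, fld e c (X i) * pd i c (fun X => (F X) ^ 2) X
        = ∫ X, ∑ c : Fin 3, -(fld e c (X i) * pd i c (fun X => (F X) ^ 2) X) := by
      have hi3 : ∀ c ∈ (univ : Finset (Fin 3)), Integrable
          (fun X => -(fld e c (X i) * pd i c (fun X => (F X) ^ 2) X)) := fun c _ => (hi2 c).neg
      rw [integral_finsetSum _ hi3]
      apply Finset.sum_congr rfl
      intro c _
      rw [integral_neg]
    rw [h1]
    apply integral_mono_ae (integrable_finsetSum _ (fun c _ => (hi2 c).neg))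
      ((hint.const_mul _).add (hig.const_mul _))
    filter_upwards [hF.ae_diff] with X hX
    show ∑ c : Fin 3, -(fld e c (X i) * pd i c (fun X => (F X) ^ 2) X)
      ≤ (1 / 2) * ((‖X i‖ ^ 2 + e)⁻¹ * (F X) ^ 2) + 2 * gsq i F X
    have hpos : 0 < ‖X i‖ ^ 2 + e := by positivity
    -- termwise
    have h2 : ∀ c : Fin 3, -(fld e c (X i) * pd i c (fun X => (F X) ^ 2) X)
        ≤ (1 / 2) * ((X i c) ^ 2 * ((‖X i‖ ^ 2 + e)⁻¹) ^ 2 * (F X) ^ 2) + 2 * (pd i c F X) ^ 2 := by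
      intro c
      rw [pd_sq hX, fld, div_eq_mul_inv]
      nlinarith [sq_nonneg (X i c * (‖X i‖ ^ 2 + e)⁻¹ * F X + 2 * pd i c F X)]
    have h3 : ∑ c : Fin 3, (X i c) ^ 2 = ‖X i‖ ^ 2 := by
      rw [EuclideanSpace.norm_sq_eq]
      simp
    calc ∑ c : Fin 3, -(fld e c (X i) * pd i c (fun X => (F X) ^ 2) X)
        ≤ ∑ c : Fin 3, ((1 / 2) * ((X i c) ^ 2 * ((‖X i‖ ^ 2 + e)⁻¹) ^ 2 * (F X) ^ 2)
          + 2 * (pd i c F X) ^ 2) := Finset.sum_le_sum fun c _ => h2 c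
      _ = (1 / 2) * (‖X i‖ ^ 2 * ((‖X i‖ ^ 2 + e)⁻¹) ^ 2 * (F X) ^ 2) + 2 * gsq i F X := by
          rw [Finset.sum_add_distrib, ← Finset.mul_sum, ← Finset.mul_sum, gsq, ← Finset.sum_mul,
            ← Finset.sum_mul, h3]
      _ ≤ (1 / 2) * ((‖X i‖ ^ 2 + e)⁻¹ * (F X) ^ 2) + 2 * gsq i F X := by
          have h4 : ‖X i‖ ^ 2 * ((‖X i‖ ^ 2 + e)⁻¹) ^ 2 ≤ (‖X i‖ ^ 2 + e)⁻¹ := by
            have h5 : (‖X i‖ ^ 2 + e) * ((‖X i‖ ^ 2 + e)⁻¹) ^ 2 = (‖X i‖ ^ 2 + e)⁻¹ := by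
              field_simp
            calc ‖X i‖ ^ 2 * ((‖X i‖ ^ 2 + e)⁻¹) ^ 2 ≤ (‖X i‖ ^ 2 + e) * ((‖X i‖ ^ 2 + e)⁻¹) ^ 2 :=
                  mul_le_mul_of_nonneg_right (by linarith) (by positivity)
              _ = _ := h5
          have h6 := mul_le_mul_of_nonneg_right h4 (sq_nonneg (F X))
          linarith
  have hsum : ∑ c : Fin 3, ∫ X, pd i c (fun X : Conf N => fld e c (X i)) X * (F X) ^ 2
      = ∑ c : Fin 3, - ∫ X, fld e c (X i) * pd i c (fun X => (F X) ^ 2) X :=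
    Finset.sum_congr rfl fun c _ => hibp c
  rw [integral_add (hint.const_mul _) (hig.const_mul _), integral_const_mul, integral_const_mul] at hR
  rw [hsum] at hL
  linarith

/-- Hardy, nucleus -/
theorem hardy_nuc {F : Conf N → ℝ} (hF : LipC F) (i : Fin N) :
    Integrable (fun X => (‖X i‖⁻¹) ^ 2 * (F X) ^ 2) ∧
      ∫ X, (‖X i‖⁻¹) ^ 2 * (F X) ^ 2 ≤ 4 * ∫ X, gsq i F X := by
  have hpos : 0 ≤ ∫ X, gsq i F X := integral_nonneg fun X => gsq_nonneg i F X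
  have hmeas : Measurable (fun X : Conf N => (‖X i‖⁻¹) ^ 2 * (F X) ^ 2) := by
    have := hF.cont.measurable
    fun_prop
  have hlint : ∫⁻ X, ENNReal.ofReal ((‖X i‖⁻¹) ^ 2 * (F X) ^ 2)
      ≤ ENNReal.ofReal (4 * ∫ X, gsq i F X) := by
    let e : ℕ → ℝ := fun n => 1 / ((n : ℝ) + 1)
    have he : ∀ n, 0 < e n := fun n => by positivity
    have het : Tendsto e atTop (𝓝 0) := tendsto_one_div_add_atTop_nhds_zero_nat
    have h1 : ∀ X : Conf N, ENNReal.ofReal ((‖X i‖⁻¹) ^ 2 * (F X) ^ 2)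
        ≤ liminf (fun n => ENNReal.ofReal ((‖X i‖ ^ 2 + e n)⁻¹ * (F X) ^ 2)) atTop := by
      intro X
      by_cases hX : X i = 0
      · simp [hX]
      · have hn : 0 < ‖X i‖ := norm_pos_iff.mpr hX
        have h2 : Tendsto (fun n => ENNReal.ofReal ((‖X i‖ ^ 2 + e n)⁻¹ * (F X) ^ 2)) atTop
            (𝓝 (ENNReal.ofReal ((‖X i‖ ^ 2 + 0)⁻¹ * (F X) ^ 2))) := by
          apply ENNReal.tendsto_ofReal
          apply Tendsto.mul_const
          apply Tendsto.inv₀ (tendsto_const_nhds.add het)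
          positivity
        rw [h2.liminf_eq]
        simp
    calc ∫⁻ X, ENNReal.ofReal ((‖X i‖⁻¹) ^ 2 * (F X) ^ 2)
        ≤ ∫⁻ X, liminf (fun n => ENNReal.ofReal ((‖X i‖ ^ 2 + e n)⁻¹ * (F X) ^ 2)) atTop :=
          lintegral_mono h1
      _ ≤ liminf (fun n => ∫⁻ X, ENNReal.ofReal ((‖X i‖ ^ 2 + e n)⁻¹ * (F X) ^ 2)) atTop := by
          apply lintegral_liminf_le
          intro n
          have := hF.cont.measurable
          fun_prop
      _ ≤ ENNReal.ofReal (4 * ∫ X, gsq i F X) := by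
          apply liminf_le_of_le
          · exact isBounded_ge_of_bot
          · intro b hb
            obtain ⟨n, hn⟩ := hb.exists
            refine hn.trans ?_
            obtain ⟨hi, hle⟩ := hardy_reg hF i (he n)
            rw [← ofReal_integral_eq_lintegral_ofReal hi]
            · exact ENNReal.ofReal_le_ofReal hle
            · exact Eventually.of_forall fun X => by positivity
  have hint : Integrable (fun X => (‖X i‖⁻¹) ^ 2 * (F X) ^ 2) := by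
    refine ⟨hmeas.aestronglyMeasurable, ?_⟩
    rw [hasFiniteIntegral_iff_ofReal (Eventually.of_forall fun X => by positivity)]
    exact lt_of_le_of_lt hlint ENNReal.ofReal_lt_top
  refine ⟨hint, ?_⟩
  rw [integral_eq_lintegral_of_nonneg_ae (Eventually.of_forall fun X => by positivity)
    hmeas.aestronglyMeasurable]
  exact ENNReal.toReal_le_of_le_ofReal (by positivity) hlint

end Ion
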