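import Pool.Agent.Lib.MP_69e010_mp.H.HE
import Pool.Agent.Lib.MP_69e010_mp.H.HC

/-!
# JOB HF (stream H of MP_69e010_mp): Hardy's inequality, pairs

Apply `hardy_nuc` to `G X = F (update X i (X i + X j))` (Lipschitz with constant `2K`, compact support: `‖X‖ <= 2 ‖update X i (X i + X j)‖`).
`gsq i G X = gsq i F (update X i (X i + X j))` at points where `F` is differentiable at the image (chain rule: moving `x_i` by `w` moves the image by
`Pi.single i w`) - for a.e. `X` by `integral_shear`/measure preservation (the null set of non-differentiability pulls back to a null set, e.g. because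
the map is a linear homeomorphism: `LinearMap`/`ContinuousLinearEquiv` quasi measure preserving); in fact the map `X ↦ update X i (X i + X j)` is a
continuous linear equivalence `A`, so `fderiv (F ∘ A) X = (fderiv F (A X)) ∘ A` for EVERY `X` (`ContinuousLinearEquiv.comp_right_fderiv`), no null set needed.
Then `∫ (‖X i‖⁻¹)² (G X)² = ∫ (‖X i - X j‖⁻¹)² (F X)²` by `integral_shear` with the integrand
`H X = (‖X i - X j‖⁻¹)² (F X)²` (`H (update X i (X i + X j)) = (‖X i‖⁻¹)² (G X)²`), same for `gsq`.
-/

open MeasureTheory Metric Finset Filter Topology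

noncomputable section

namespace Ion

variable {N : ℕ}

/-- the linear map `X ↦ update X i (X i + s X j)` -/
def aux_HF_lin (i j : Fin N) (s : ℝ) : Conf N →ₗ[ℝ] Conf N where
  toFun X := Function.update X i (X i + s • X j)
  map_add' X Y := by
    funext k
    by_cases hk : k = i
    · subst hk
      simp only [Function.update_self, Pi.add_apply, smul_add]
      abel
    · simp only [Function.update_of_ne hk, Pi.add_apply]
  map_smul' a X := by
    funext k
    by_cases hk : k = i
    · subst hk
      simp only [Function.update_self, Pi.smul_apply, smul_add, RingHom.id_apply]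
      rw [smul_comm s a]
    · simp only [Function.update_of_ne hk, Pi.smul_apply, RingHom.id_apply]

theorem aux_HF_comp {i j : Fin N} (hij : i ≠ j) (s : ℝ) (X : Conf N) :
    aux_HF_lin i j s (aux_HF_lin i j (-s) X) = X := by
  show Function.update (Function.update X i (X i + (-s) • X j)) i
    (Function.update X i (X i + (-s) • X j) i + s • Function.update X i (X i + (-s) • X j) j) = X
  rw [Function.update_self, Function.update_of_ne hij.symm, Function.update_idem]
  rw [neg_smul, neg_add_cancel_right, Function.update_eq_self]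

/-- the shear as a continuous linear equivalence -/
def aux_HF_A {i j : Fin N} (hij : i ≠ j) : Conf N ≃L[ℝ] Conf N :=
  LinearEquiv.toContinuousLinearEquiv
    { aux_HF_lin i j 1 with
      invFun := aux_HF_lin i j (-1)
      left_inv := fun X => by
        have h := aux_HF_comp hij (-1) X
        rw [neg_neg] at h
        exact h
      right_inv := fun X => aux_HF_comp hij 1 X }

theorem aux_HF_apply {i j : Fin N} (hij : i ≠ j) (X : Conf N) :
    aux_HF_A hij X = Function.update X i (X i + X j) := by
  show Function.update X i (X i + (1 : ℝ) • X j) = Function.update X i (X i + X j)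
  rw [one_smul]

theorem aux_HF_single {i j : Fin N} (hij : i ≠ j) (w : E3) :
    aux_HF_A hij (Pi.single i w) = Pi.single i w := by
  rw [aux_HF_apply]
  funext k
  by_cases hk : k = i
  · subst hk
    rw [Function.update_self, Pi.single_eq_same, Pi.single_eq_of_ne hij.symm, add_zero]
  · rw [Function.update_of_ne hk]

theorem aux_HF_gsq {i j : Fin N} (hij : i ≠ j) (F : Conf N → ℝ) (X : Conf N) :
    gsq i (fun X => F (Function.update X i (X i + X j))) X =
      gsq i F (Function.update X i (X i + X j)) := by
  have h1 : (fun X => F (Function.update X i (X i + X j))) = F ∘ aux_HF_A hij := by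
    funext Y
    show _ = F (aux_HF_A hij Y)
    rw [aux_HF_apply]
  unfold gsq
  refine Finset.sum_congr rfl fun c _ => ?_
  congr 1
  unfold pd
  rw [h1, ContinuousLinearEquiv.comp_right_fderiv, ← aux_HF_apply hij,
    ContinuousLinearMap.comp_apply]
  congr 1
  exact aux_HF_single hij _

theorem aux_HF_lipC {i j : Fin N} (hij : i ≠ j) {F : Conf N → ℝ} (hF : LipC F) :
    LipC (fun X => F (Function.update X i (X i + X j))) := by
  have h1 : (fun X => F (Function.update X i (X i + X j))) = F ∘ aux_HF_A hij := by
    funext Y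
    show _ = F (aux_HF_A hij Y)
    rw [aux_HF_apply]
  rw [h1]
  obtain ⟨⟨K, hK⟩, hS⟩ := hF
  exact ⟨⟨_, hK.comp (aux_HF_A hij).lipschitz⟩, hS.comp_homeomorph (aux_HF_A hij).toHomeomorph⟩

/-- Hardy, pairs -/
theorem hardy_pair {F : Conf N → ℝ} (hF : LipC F) {i j : Fin N} (hij : i ≠ j) :
    Integrable (fun X => (‖X i - X j‖⁻¹) ^ 2 * (F X) ^ 2) ∧
      ∫ X, (‖X i - X j‖⁻¹) ^ 2 * (F X) ^ 2 ≤ 4 * ∫ X, gsq i F X := by
  obtain ⟨C, hC0, hC⟩ := hF.bdd
  have hS : IsCompact (tsupport F) := hF.2
  have hH : Integrable (fun X => (‖X i - X j‖⁻¹) ^ 2 * (F X) ^ 2) := by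
    refine integrable_inv_sq_mul_pair (G := fun X => (F X) ^ 2) (hF.cont.measurable.pow_const 2)
      (C := C ^ 2) (fun X => ?_) hS (fun X hX => ?_) hij
    · rw [abs_pow]
      exact pow_le_pow_left₀ (abs_nonneg _) (hC X) 2
    · show F X ^ 2 = 0
      rw [image_eq_zero_of_notMem_tsupport hX]
      norm_num
  refine ⟨hH, ?_⟩
  obtain ⟨-, h1⟩ := hardy_nuc (aux_HF_lipC hij hF) i
  obtain ⟨-, h2⟩ := integral_shear hH hij
  obtain ⟨-, h3⟩ := integral_shear (hF.integrable_gsq i) hij
  have h4 : ∀ X : Conf N, (‖Function.update X i (X i + X j) i - Function.update X i (X i + X j) j‖⁻¹) ^ 2 *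
      (F (Function.update X i (X i + X j))) ^ 2 =
      (‖X i‖⁻¹) ^ 2 * (F (Function.update X i (X i + X j))) ^ 2 := by
    intro X
    rw [Function.update_self, Function.update_of_ne hij.symm, add_sub_cancel_right]
  rw [← h2, ← h3, integral_congr_ae (Filter.Eventually.of_forall h4)]
  refine h1.trans (le_of_eq ?_)
  congr 1
  exact integral_congr_ae (Filter.Eventually.of_forall fun X => aux_HF_gsq hij F X)

end Ion
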