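import Pool.Agent.Lib.MP_69e010_mp.H.HC
import Pool.Agent.Lib.MP_69e010_mp.H.HB

/-!
# JOB HG (stream H of MP_69e010_mp): number bound (Pauli principle)

`AB B i G X = |B|⁻¹ ∫_{x ∈ B} G (update X i x) dx`.  Facts (for Lipschitz compactly supported `G`):
(a) `AB B i G (update X i x) = AB B i G X`; (b) `AB` is bounded and Lipschitz;
(c) `∫ 1_B(x_i) G = ∫ 1_B(x_i) AB B i G` (`integral_box`), also for `G` replaced by products `G * AB B i G`;
(d) `AB B i (AB B j (ψ σ)) = 0` for `i ≠ j`, `σ i = σ j`: the double integral over `B x B` of `ψ σ (update (update X i x) j x')` is antisymmetric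
under exchange of `x, x'` (`Anti` with the transposition `Equiv.swap i j`).
-/

open MeasureTheory Metric Finset Filter Topology

noncomputable section

namespace Ion

variable {N : ℕ}

/-- average over the box `B` in the variable of electron `i` -/
def AB (B : Set E3) (i : Fin N) (G : Conf N → ℝ) (X : Conf N) : ℝ :=
  (volume.real B)⁻¹ * ∫ x in B, G (Function.update X i x)

theorem aux_HG_upd (B : Set E3) (i : Fin N) (G : Conf N → ℝ) (X : Conf N) (x : E3) :
    AB B i G (Function.update X i x) = AB B i G X := by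
  unfold AB
  simp only [Function.update_idem]

theorem aux_HG_dist (X Y : Conf N) (i : Fin N) (x : E3) :
    dist (Function.update X i x) (Function.update Y i x) ≤ dist X Y := by
  rw [dist_pi_le_iff dist_nonneg]
  intro k
  by_cases hk : k = i
  · subst hk
    simp
  · rw [Function.update_of_ne hk, Function.update_of_ne hk]
    exact dist_le_pi_dist X Y k

theorem aux_HG_slice {F : Conf N → ℝ} (hF : Continuous F) (X : Conf N) (i : Fin N) :
    Continuous (fun x : E3 => F (Function.update X i x)) :=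
  hF.comp (continuous_const.update i continuous_id)

theorem aux_HG_int {F : Conf N → ℝ} (hF : Continuous F) {C : ℝ} (hC : ∀ X, |F X| ≤ C)
    {B : Set E3} (hB1 : volume B ≠ ⊤) (X : Conf N) (i : Fin N) :
    IntegrableOn (fun x : E3 => F (Function.update X i x)) B := by
  have : Fact (volume B < ⊤) := ⟨lt_top_iff_ne_top.2 hB1⟩
  have : IsFiniteMeasure (volume.restrict B) := inferInstance
  exact Integrable.of_bound ((aux_HG_slice hF X i).aestronglyMeasurable) C
    (Filter.Eventually.of_forall fun x => hC _)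

theorem aux_HG_real {B : Set E3} (hB0 : volume B ≠ 0) (hB1 : volume B ≠ ⊤) :
    0 < volume.real B := ENNReal.toReal_pos hB0 hB1

theorem aux_HG_bdd {F : Conf N → ℝ} {C : ℝ} (hC : ∀ X, |F X| ≤ C)
    {B : Set E3} (hB0 : volume B ≠ 0) (hB1 : volume B ≠ ⊤) (i : Fin N) (X : Conf N) :
    |AB B i F X| ≤ C := by
  have h0 := aux_HG_real hB0 hB1
  unfold AB
  rw [abs_mul, abs_of_pos (inv_pos.2 h0)]
  have h1 := norm_setIntegral_le_of_norm_le_const (μ := volume) (s := B)
    (f := fun x : E3 => F (Function.update X i x)) (C := C) (lt_top_iff_ne_top.2 hB1)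
    (fun x _ => hC _)
  rw [Real.norm_eq_abs] at h1
  calc (volume.real B)⁻¹ * |∫ x in B, F (Function.update X i x)|
      ≤ (volume.real B)⁻¹ * (C * volume.real B) :=
        mul_le_mul_of_nonneg_left h1 (inv_nonneg.2 h0.le)
    _ = C := by field_simp

theorem aux_HG_cont {F : Conf N → ℝ} (hF : LipC F) {B : Set E3} (hB0 : volume B ≠ 0)
    (hB1 : volume B ≠ ⊤) (i : Fin N) : Continuous (AB B i F) := by
  obtain ⟨K, hK⟩ := hF.1
  obtain ⟨C, hC0, hC⟩ := hF.bdd
  have h0 := aux_HG_real hB0 hB1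
  refine (LipschitzWith.of_dist_le_mul (K := K) fun X Y => ?_).continuous
  unfold AB
  rw [Real.dist_eq, ← mul_sub, ← integral_sub (aux_HG_int hF.cont hC hB1 X i)
    (aux_HG_int hF.cont hC hB1 Y i), abs_mul, abs_of_pos (inv_pos.2 h0)]
  have h1 := norm_setIntegral_le_of_norm_le_const (μ := volume) (s := B)
    (f := fun x : E3 => F (Function.update X i x) - F (Function.update Y i x))
    (C := K * dist X Y) (lt_top_iff_ne_top.2 hB1)
    (fun x _ => by
      have h2 := hK.dist_le_mul (Function.update X i x) (Function.update Y i x)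
      rw [Real.norm_eq_abs, ← Real.dist_eq]
      exact h2.trans (mul_le_mul_of_nonneg_left (aux_HG_dist X Y i x) K.2))
  rw [Real.norm_eq_abs] at h1
  calc (volume.real B)⁻¹ * |∫ x in B, F (Function.update X i x) - F (Function.update Y i x)|
      ≤ (volume.real B)⁻¹ * (K * dist X Y * volume.real B) :=
        mul_le_mul_of_nonneg_left h1 (inv_nonneg.2 h0.le)
    _ = K * dist X Y := by field_simp

/-- the function `1_B(x_i) AB B i F` -/
def aux_HG_h (B : Set E3) (F : Conf N → ℝ) (i : Fin N) (X : Conf N) : ℝ :=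
  B.indicator (fun _ => (1 : ℝ)) (X i) * AB B i F X

theorem aux_HG_h_int {F : Conf N → ℝ} (hF : LipC F) {B : Set E3} (hB : MeasurableSet B)
    (hB0 : volume B ≠ 0) (hB1 : volume B ≠ ⊤) (i : Fin N) : Integrable (aux_HG_h B F i) :=
  (integral_box hB hB0 hB1 hF.integrable i).1

theorem aux_HG_ind_meas {B : Set E3} (hB : MeasurableSet B) (i : Fin N) :
    Measurable (fun X : Conf N => B.indicator (fun _ => (1 : ℝ)) (X i)) :=
  (measurable_const.indicator hB).comp (measurable_pi_apply i)

theorem aux_HG_ind_le (B : Set E3) (x : E3) : |B.indicator (fun _ => (1 : ℝ)) x| ≤ 1 := by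
  by_cases h : x ∈ B
  · simp [h]
  · simp [h]

theorem aux_HG_h_bdd {F : Conf N → ℝ} {C : ℝ} (hC : ∀ X, |F X| ≤ C)
    {B : Set E3} (hB0 : volume B ≠ 0) (hB1 : volume B ≠ ⊤) (i : Fin N) (X : Conf N) :
    |aux_HG_h B F i X| ≤ C := by
  unfold aux_HG_h
  rw [abs_mul]
  calc |B.indicator (fun _ => (1 : ℝ)) (X i)| * |AB B i F X| ≤ 1 * C :=
        mul_le_mul (aux_HG_ind_le B _) (aux_HG_bdd hC hB0 hB1 i X) (abs_nonneg _) zero_le_one
    _ = C := one_mul C

theorem aux_HG_h_meas {F : Conf N → ℝ} (hF : LipC F) {B : Set E3} (hB : MeasurableSet B)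
    (hB0 : volume B ≠ 0) (hB1 : volume B ≠ ⊤) (i : Fin N) : Measurable (aux_HG_h B F i) :=
  (aux_HG_ind_meas hB i).mul (aux_HG_cont hF hB0 hB1 i).measurable

theorem aux_HG_mul_int {G H : Conf N → ℝ} (hG : Integrable G) (hH : Measurable H) {C : ℝ}
    (hC : ∀ X, |H X| ≤ C) : Integrable (fun X => G X * H X) :=
  hG.mul_bdd hH.aestronglyMeasurable (Filter.Eventually.of_forall hC)

/-- `⟨F, P_i F⟩ = ‖P_i F‖²` -/
theorem aux_HG_diag {F : Conf N → ℝ} (hF : LipC F) {B : Set E3} (hB : MeasurableSet B)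
    (hB0 : volume B ≠ 0) (hB1 : volume B ≠ ⊤) (i : Fin N) :
    ∫ X, F X * aux_HG_h B F i X = ∫ X, aux_HG_h B F i X * aux_HG_h B F i X := by
  obtain ⟨C, hC0, hC⟩ := hF.bdd
  have h1 := (integral_box hB hB0 hB1 (G := fun X => F X * AB B i F X)
    (aux_HG_mul_int hF.integrable (aux_HG_cont hF hB0 hB1 i).measurable
      (aux_HG_bdd hC hB0 hB1 i)) i).2
  have e1 : ∫ X, F X * aux_HG_h B F i X =
      ∫ X, B.indicator (fun _ => (1 : ℝ)) (X i) * (F X * AB B i F X) := by
    refine integral_congr_ae (Filter.Eventually.of_forall fun X => ?_)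
    show F X * (B.indicator (fun _ => (1 : ℝ)) (X i) * AB B i F X) = _
    ring
  rw [e1, h1]
  refine integral_congr_ae (Filter.Eventually.of_forall fun X => ?_)
  show B.indicator (fun _ => (1 : ℝ)) (X i) * ((volume.real B)⁻¹ *
    ∫ x in B, F (Function.update X i x) * AB B i F (Function.update X i x)) =
    (B.indicator (fun _ => (1 : ℝ)) (X i) * AB B i F X) *
      (B.indicator (fun _ => (1 : ℝ)) (X i) * AB B i F X)
  simp only [aux_HG_upd]
  rw [integral_mul_const]
  have e2 : (volume.real B)⁻¹ * ((∫ x in B, F (Function.update X i x)) * AB B i F X) =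
      AB B i F X * AB B i F X := by
    rw [← mul_assoc]
    rfl
  rw [e2]
  by_cases h : X i ∈ B
  · simp [h]
  · simp [h]

theorem aux_HG_zero {F : Conf N → ℝ} (hF : LipC F) {B : Set E3} (hB1 : volume B ≠ ⊤)
    {i j : Fin N} (hij : i ≠ j) (hanti : ∀ X, F (X ∘ Equiv.swap i j) = - F X) (X : Conf N) :
    ∫ x in B, AB B j F (Function.update X i x) = 0 := by
  obtain ⟨C, hC0, hC⟩ := hF.bdd
  unfold AB
  rw [integral_const_mul]
  have : Fact (volume B < ⊤) := ⟨lt_top_iff_ne_top.2 hB1⟩
  set f : E3 → E3 → ℝ := fun x x' => F (Function.update (Function.update X i x) j x') with hf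
  have hfs : ∀ x x', f x' x = - f x x' := by
    intro x x'
    rw [hf]
    simp only
    rw [← hanti]
    congr 1
    funext k
    simp only [Function.comp_apply]
    by_cases hki : k = i
    · subst hki
      rw [Equiv.swap_apply_left, Function.update_self, Function.update_of_ne hij,
        Function.update_self]
    · by_cases hkj : k = j
      · subst hkj
        rw [Equiv.swap_apply_right, Function.update_self, Function.update_of_ne hij,
          Function.update_self]
      · rw [Equiv.swap_apply_of_ne_of_ne hki hkj, Function.update_of_ne hkj,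
          Function.update_of_ne hki, Function.update_of_ne hkj, Function.update_of_ne hki]
  have hcont : Continuous (Function.uncurry f) := by
    have hc1 : Continuous (fun p : E3 × E3 => Function.update X i p.1) :=
      continuous_const.update i continuous_fst
    have hc2 : Continuous (fun p : E3 × E3 => Function.update (Function.update X i p.1) j p.2) :=
      hc1.update j continuous_snd
    exact hF.cont.comp hc2
  have hint : Integrable (Function.uncurry f) ((volume.restrict B).prod (volume.restrict B)) :=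
    Integrable.of_bound hcont.aestronglyMeasurable C (Filter.Eventually.of_forall fun x => hC _)
  have hswap := integral_integral_swap hint
  have h1 : ∫ x' in B, ∫ x in B, f x x' = - ∫ x in B, ∫ x' in B, f x x' := by
    have h2 : ∀ x', ∫ x in B, f x x' = - ∫ x in B, f x' x := by
      intro x'
      rw [← integral_neg]
      refine integral_congr_ae (Filter.Eventually.of_forall fun x => ?_)
      show f x x' = - f x' x
      rw [hfs x x', neg_neg]
    calc ∫ x' in B, ∫ x in B, f x x' = ∫ x' in B, - ∫ x in B, f x' x :=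
          integral_congr_ae (Filter.Eventually.of_forall h2)
      _ = _ := by rw [integral_neg]
  have h3 : ∫ x in B, ∫ x' in B, f x x' = 0 := by
    have h4 : ∫ x in B, ∫ x' in B, f x x' = - ∫ x in B, ∫ x' in B, f x x' := by
      rw [← h1]
      exact hswap
    linarith
  show (volume.real B)⁻¹ * ∫ x in B, ∫ x' in B, f x x' = 0
  rw [h3, mul_zero]

/-- `⟨P_i F, P_j F⟩ = 0` -/
theorem aux_HG_off {F : Conf N → ℝ} (hF : LipC F) {B : Set E3} (hB : MeasurableSet B)
    (hB0 : volume B ≠ 0) (hB1 : volume B ≠ ⊤) {i j : Fin N} (hij : i ≠ j)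
    (hanti : ∀ X, F (X ∘ Equiv.swap i j) = - F X) :
    ∫ X, aux_HG_h B F i X * aux_HG_h B F j X = 0 := by
  obtain ⟨C, hC0, hC⟩ := hF.bdd
  have h1 := (integral_box hB hB0 hB1 (G := fun X => aux_HG_h B F j X * AB B i F X)
    (aux_HG_mul_int (aux_HG_h_int hF hB hB0 hB1 j) (aux_HG_cont hF hB0 hB1 i).measurable
      (aux_HG_bdd hC hB0 hB1 i)) i).2
  have e1 : ∫ X, aux_HG_h B F i X * aux_HG_h B F j X =
      ∫ X, B.indicator (fun _ => (1 : ℝ)) (X i) * (aux_HG_h B F j X * AB B i F X) := by
    refine integral_congr_ae (Filter.Eventually.of_forall fun X => ?_)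
    show (B.indicator (fun _ => (1 : ℝ)) (X i) * AB B i F X) * aux_HG_h B F j X = _
    ring
  rw [e1, h1]
  have e2 : ∀ X : Conf N, ∫ x in B, aux_HG_h B F j (Function.update X i x) *
      AB B i F (Function.update X i x) = 0 := by
    intro X
    have e3 : ∀ x, aux_HG_h B F j (Function.update X i x) * AB B i F (Function.update X i x) =
        (B.indicator (fun _ => (1 : ℝ)) (X j) * AB B i F X) *
          AB B j F (Function.update X i x) := by
      intro x
      unfold aux_HG_h
      rw [aux_HG_upd, Function.update_of_ne hij.symm]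
      ring
    simp only [e3]
    rw [integral_const_mul, aux_HG_zero hF hB1 hij hanti X, mul_zero]
  simp only [e2, mul_zero, integral_zero]

theorem aux_HG_main {F : Conf N → ℝ} (hF : LipC F) {B : Set E3} (hB : MeasurableSet B)
    (hB0 : volume B ≠ 0) (hB1 : volume B ≠ ⊤) (I : Finset (Fin N))
    (hanti : ∀ i ∈ I, ∀ j ∈ I, i ≠ j → ∀ X, F (X ∘ Equiv.swap i j) = - F X) :
    ∑ i ∈ I, ∫ X, aux_HG_h B F i X * aux_HG_h B F i X ≤ ∫ X, (F X) ^ 2 := by
  obtain ⟨C, hC0, hC⟩ := hF.bdd
  have hFh : ∀ i, Integrable (fun X => F X * aux_HG_h B F i X) := fun i =>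
    aux_HG_mul_int hF.integrable (aux_HG_h_meas hF hB hB0 hB1 i) (aux_HG_h_bdd hC hB0 hB1 i)
  have hhh : ∀ i j, Integrable (fun X => aux_HG_h B F i X * aux_HG_h B F j X) := fun i j =>
    aux_HG_mul_int (aux_HG_h_int hF hB hB0 hB1 i) (aux_HG_h_meas hF hB hB0 hB1 j)
      (aux_HG_h_bdd hC hB0 hB1 j)
  have h0 : 0 ≤ ∫ X, (F X - ∑ i ∈ I, aux_HG_h B F i X) ^ 2 :=
    integral_nonneg fun X => sq_nonneg _
  have e1 : ∀ X, (F X - ∑ i ∈ I, aux_HG_h B F i X) ^ 2 =
      (F X) ^ 2 - 2 * (∑ i ∈ I, F X * aux_HG_h B F i X) +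
        ∑ i ∈ I, ∑ j ∈ I, aux_HG_h B F i X * aux_HG_h B F j X := by
    intro X
    rw [← Finset.mul_sum, ← Finset.sum_mul_sum]
    ring
  simp only [e1] at h0
  have hi1 : Integrable (fun X => 2 * (∑ i ∈ I, F X * aux_HG_h B F i X)) :=
    (integrable_finsetSum _ fun i _ => hFh i).const_mul 2
  have hi2 : Integrable (fun X => ∑ i ∈ I, ∑ j ∈ I, aux_HG_h B F i X * aux_HG_h B F j X) :=
    integrable_finsetSum _ fun i _ => integrable_finsetSum _ fun j _ => hhh i j
  have hi3 : Integrable (fun X => (F X) ^ 2 - 2 * (∑ i ∈ I, F X * aux_HG_h B F i X)) :=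
    hF.integrable_sq.sub hi1
  rw [integral_add hi3 hi2, integral_sub hF.integrable_sq hi1,
    integral_const_mul, integral_finsetSum _ fun i _ => hFh i,
    integral_finsetSum _ fun i _ => integrable_finsetSum _ fun j _ => hhh i j] at h0
  have e2 : ∑ i ∈ I, ∫ X, F X * aux_HG_h B F i X =
      ∑ i ∈ I, ∫ X, aux_HG_h B F i X * aux_HG_h B F i X :=
    Finset.sum_congr rfl fun i _ => aux_HG_diag hF hB hB0 hB1 i
  have e3 : ∑ i ∈ I, ∫ X, ∑ j ∈ I, aux_HG_h B F i X * aux_HG_h B F j X =
      ∑ i ∈ I, ∫ X, aux_HG_h B F i X * aux_HG_h B F i X := by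
    refine Finset.sum_congr rfl fun i hi => ?_
    rw [integral_finsetSum _ fun j _ => hhh i j]
    refine Finset.sum_eq_single_of_mem i hi fun j hj hji => ?_
    exact aux_HG_off hF hB hB0 hB1 hji.symm (hanti i hi j hj hji.symm)
  rw [e2, e3] at h0
  linarith

theorem number_bound {ψ : RW N} (hψ : Adms ψ) {B : Set E3} (hB : MeasurableSet B)
    (hB0 : volume B ≠ 0) (hB1 : Bornology.IsBounded B) :
    ∑ σ, ∑ i, ∫ X, B.indicator (fun _ => (1 : ℝ)) (X i) * (AB B i (ψ σ) X) ^ 2
      ≤ 2 * nrm2 ψ := by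
  have hBt : volume B ≠ ⊤ := hB1.measure_lt_top.ne
  unfold nrm2
  rw [Finset.mul_sum]
  refine Finset.sum_le_sum fun σ _ => ?_
  have hσ : ∀ s : Fin 2, ∑ i ∈ univ.filter (fun i => σ i = s),
      ∫ X, aux_HG_h B (ψ σ) i X * aux_HG_h B (ψ σ) i X ≤ ∫ X, (ψ σ X) ^ 2 := by
    intro s
    refine aux_HG_main (hψ.1 σ) hB hB0 hBt _ ?_
    intro i hi j hj hij X
    have hi' := (Finset.mem_filter.1 hi).2
    have hj' := (Finset.mem_filter.1 hj).2
    have h1 := hψ.2 (Equiv.swap i j) σ X
    have h2 : σ ∘ Equiv.swap i j = σ := by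
      funext k
      simp only [Function.comp_apply]
      by_cases hki : k = i
      · subst hki
        rw [Equiv.swap_apply_left, hi', hj']
      · by_cases hkj : k = j
        · subst hkj
          rw [Equiv.swap_apply_right, hi', hj']
        · rw [Equiv.swap_apply_of_ne_of_ne hki hkj]
    rw [h2, Equiv.Perm.sign_swap hij] at h1
    rw [h1]
    simp
  have e1 : ∀ i, ∫ X, B.indicator (fun _ => (1 : ℝ)) (X i) * (AB B i (ψ σ) X) ^ 2 =
      ∫ X, aux_HG_h B (ψ σ) i X * aux_HG_h B (ψ σ) i X := by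
    intro i
    refine integral_congr_ae (Filter.Eventually.of_forall fun X => ?_)
    show B.indicator (fun _ => (1 : ℝ)) (X i) * (AB B i (ψ σ) X) ^ 2 =
      (B.indicator (fun _ => (1 : ℝ)) (X i) * AB B i (ψ σ) X) *
        (B.indicator (fun _ => (1 : ℝ)) (X i) * AB B i (ψ σ) X)
    by_cases h : X i ∈ B
    · simp [h, sq]
    · simp [h]
  simp only [e1]
  rw [← Finset.sum_fiberwise (s := univ) (g := σ), Fin.sum_univ_two]
  have h0 := hσ 0
  have h1 := hσ 1
  linarith

end Ion
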