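import Pool.Agent.Lib.MP_69e010_mp.H.HD
import Pool.Agent.Lib.MP_69e010_mp.H.HG

/-!
# JOB HH (stream H of MP_69e010_mp): local exclusion principle

`B = ball y l`.  For every `σ, i, X`: Poincare (`poincare_ball`) for the slice `x ↦ ψ σ (update X i x)` (Lipschitz: `slice_lip`):
`∫_B ψ(update X i x)² dx - |B|⁻¹ (∫_B ψ(update X i x) dx)² <= 16 l² ∫_B gsq i (ψ σ) (update X i x) dx` for a.e. `X` (`slice_fderiv` and `ae_update` of Rademacher).
Multiply with `|B|⁻¹ 1_B(X i)` and integrate over `X`: with `integral_box` (for `G = (ψ σ)²` and `G = gsq i (ψ σ)`)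
`∫ 1_B(x_i) (ψ σ)² - ∫ 1_B(x_i) (AB B i (ψ σ))² <= 16 l² ∫ 1_B(x_i) gsq i (ψ σ)`.
Sum over `i` and `σ`, use `number_bound`: `∑_σ ∫ nb ψ² - 2 ‖ψ‖² <= 16 l² ∑_σ ∫ ∑_i 1_B(x_i) gsq`.
-/

open MeasureTheory Metric Finset Filter Topology

noncomputable section

namespace Ion

variable {N : ℕ}

theorem aux_HH_pointwise {F : Conf N → ℝ} (hF : LipC F) (y : E3) {l : ℝ} (hl : 0 < l)
    (i : Fin N) : ∀ᵐ X : Conf N,
      (ball y l).indicator (fun _ => (1 : ℝ)) (X i) *
          ((volume.real (ball y l))⁻¹ * ∫ x in ball y l, (F (Function.update X i x)) ^ 2) -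
        aux_HG_h (ball y l) F i X * aux_HG_h (ball y l) F i X ≤
      16 * l ^ 2 * ((ball y l).indicator (fun _ => (1 : ℝ)) (X i) *
        ((volume.real (ball y l))⁻¹ * ∫ x in ball y l, gsq i F (Function.update X i x))) := by
  obtain ⟨K, hK⟩ := hF.1
  have h0 : 0 < volume.real (ball y l) :=
    aux_HG_real (measure_ball_pos volume y hl).ne' measure_ball_lt_top.ne
  filter_upwards [ae_update hF.ae_diff i] with X hX
  by_cases h : X i ∈ ball y l
  · have h1 := poincare_ball (slice_lip hK X i) y hl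
    have h2 : ∫ x in ball y l, ∑ c, (fderiv ℝ (fun x : E3 => F (Function.update X i x)) x
        (EuclideanSpace.single c (1 : ℝ))) ^ 2 =
        ∫ x in ball y l, gsq i F (Function.update X i x) := by
      refine integral_congr_ae (ae_restrict_of_ae ?_)
      filter_upwards [hX] with x hx
      unfold gsq
      exact Finset.sum_congr rfl fun c _ => by rw [(slice_fderiv hx c).2]
    rw [h2] at h1
    unfold aux_HG_h AB
    simp only [Set.indicator_of_mem h, one_mul]
    have h3 := mul_le_mul_of_nonneg_left h1 (inv_nonneg.2 h0.le)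
    refine le_trans (le_of_eq ?_) (h3.trans (le_of_eq ?_))
    · ring
    · ring
  · unfold aux_HG_h
    simp [h]

theorem aux_HH_one {F : Conf N → ℝ} (hF : LipC F) (y : E3) {l : ℝ} (hl : 0 < l) (i : Fin N) :
    (∫ X, (ball y l).indicator (fun _ => (1 : ℝ)) (X i) * (F X) ^ 2) -
      (∫ X, (ball y l).indicator (fun _ => (1 : ℝ)) (X i) * (AB (ball y l) i F X) ^ 2) ≤
    16 * l ^ 2 * (∫ X, (ball y l).indicator (fun _ => (1 : ℝ)) (X i) * gsq i F X) := by
  obtain ⟨C, hC0, hC⟩ := hF.bdd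
  have hB : MeasurableSet (ball y l) := measurableSet_ball
  have hB0 : volume (ball y l) ≠ 0 := (measure_ball_pos volume y hl).ne'
  have hB1 : volume (ball y l) ≠ ⊤ := measure_ball_lt_top.ne
  have b1 := integral_box hB hB0 hB1 hF.integrable_sq i
  have b2 := integral_box hB hB0 hB1 (hF.integrable_gsq i) i
  have b3 : Integrable (fun X => aux_HG_h (ball y l) F i X * aux_HG_h (ball y l) F i X) :=
    aux_HG_mul_int (aux_HG_h_int hF hB hB0 hB1 i) (aux_HG_h_meas hF hB hB0 hB1 i)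
      (aux_HG_h_bdd hC hB0 hB1 i)
  have e1 : ∫ X, (ball y l).indicator (fun _ => (1 : ℝ)) (X i) * (AB (ball y l) i F X) ^ 2 =
      ∫ X, aux_HG_h (ball y l) F i X * aux_HG_h (ball y l) F i X := by
    refine integral_congr_ae (Filter.Eventually.of_forall fun X => ?_)
    show (ball y l).indicator (fun _ => (1 : ℝ)) (X i) * (AB (ball y l) i F X) ^ 2 =
      ((ball y l).indicator (fun _ => (1 : ℝ)) (X i) * AB (ball y l) i F X) *
        ((ball y l).indicator (fun _ => (1 : ℝ)) (X i) * AB (ball y l) i F X)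
    by_cases h : X i ∈ ball y l
    · simp only [Set.indicator_of_mem h]
      ring
    · simp [h]
  rw [b1.2, b2.2, e1, ← integral_sub b1.1 b3, ← integral_const_mul]
  exact integral_mono_ae (b1.1.sub b3) (b2.1.const_mul _) (aux_HH_pointwise hF y hl i)

theorem aux_HH_nb (y : E3) (l : ℝ) (X : Conf N) :
    nb y l X = ∑ i, (ball y l).indicator (fun _ => (1 : ℝ)) (X i) := by
  classical
  unfold nb
  refine Finset.sum_congr rfl fun i _ => ?_
  rw [Set.indicator_apply]
  simp only [mem_ball, dist_eq_norm]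

theorem aux_HH_gsq (y : E3) (l : ℝ) (F : Conf N → ℝ) (X : Conf N) (i : Fin N) :
    (if ‖X i - y‖ < l then gsq i F X else 0) =
      (ball y l).indicator (fun _ => (1 : ℝ)) (X i) * gsq i F X := by
  classical
  rw [Set.indicator_apply]
  simp only [mem_ball, dist_eq_norm]
  split_ifs <;> simp

theorem aux_HH_ind_int {G : Conf N → ℝ} (hG : Integrable G) (y : E3) (l : ℝ) (i : Fin N) :
    Integrable (fun X => (ball y l).indicator (fun _ => (1 : ℝ)) (X i) * G X) := by
  have h := aux_HG_mul_int hG (aux_HG_ind_meas (measurableSet_ball (x := y) (ε := l)) i)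
    (C := 1) (fun X => aux_HG_ind_le _ _)
  refine h.congr (Filter.Eventually.of_forall fun X => ?_)
  exact mul_comm _ _

/-- local exclusion principle -/
theorem local_exclusion {ψ : RW N} (hψ : Adms ψ) (y : E3) {l : ℝ} (hl : 0 < l) :
    1 / (16 * l ^ 2) * ∑ σ, ∫ X, (nb y l X - 2) * (ψ σ X) ^ 2
      ≤ ∑ σ, ∫ X, ∑ i, (if ‖X i - y‖ < l then gsq i (ψ σ) X else 0) := by
  have hnb := number_bound hψ (B := ball y l) measurableSet_ball
    (measure_ball_pos volume y hl).ne' isBounded_ball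
  unfold nrm2 at hnb
  have e1 : ∀ σ, ∫ X, (nb y l X - 2) * (ψ σ X) ^ 2 =
      (∑ i, ∫ X, (ball y l).indicator (fun _ => (1 : ℝ)) (X i) * (ψ σ X) ^ 2) -
        2 * (∫ X, (ψ σ X) ^ 2) := by
    intro σ
    have h1 : ∀ X, (nb y l X - 2) * (ψ σ X) ^ 2 =
        (∑ i, (ball y l).indicator (fun _ => (1 : ℝ)) (X i) * (ψ σ X) ^ 2) -
          2 * (ψ σ X) ^ 2 := by
      intro X
      rw [aux_HH_nb, sub_mul, Finset.sum_mul]
    simp only [h1]
    rw [integral_sub (integrable_finsetSum _ fun i _ =>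
      aux_HH_ind_int (hψ.1 σ).integrable_sq y l i) ((hψ.1 σ).integrable_sq.const_mul 2),
      integral_const_mul, integral_finsetSum _ fun i _ =>
        aux_HH_ind_int (hψ.1 σ).integrable_sq y l i]
  have e2 : ∀ σ, ∫ X, ∑ i, (if ‖X i - y‖ < l then gsq i (ψ σ) X else 0) =
      ∑ i, ∫ X, (ball y l).indicator (fun _ => (1 : ℝ)) (X i) * gsq i (ψ σ) X := by
    intro σ
    simp only [aux_HH_gsq]
    exact integral_finsetSum _ fun i _ => aux_HH_ind_int ((hψ.1 σ).integrable_gsq i) y l i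
  simp only [e1, e2]
  have hsum : (∑ σ, ∑ i, ∫ X, (ball y l).indicator (fun _ => (1 : ℝ)) (X i) * (ψ σ X) ^ 2) -
      (∑ σ, ∑ i, ∫ X, (ball y l).indicator (fun _ => (1 : ℝ)) (X i) *
        (AB (ball y l) i (ψ σ) X) ^ 2) ≤
      16 * l ^ 2 * (∑ σ, ∑ i, ∫ X, (ball y l).indicator (fun _ => (1 : ℝ)) (X i) *
        gsq i (ψ σ) X) := by
    rw [← Finset.sum_sub_distrib, Finset.mul_sum]
    refine Finset.sum_le_sum fun σ _ => ?_
    rw [← Finset.sum_sub_distrib, Finset.mul_sum]
    exact Finset.sum_le_sum fun i _ => aux_HH_one (hψ.1 σ) y hl i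
  rw [Finset.sum_sub_distrib, ← Finset.mul_sum]
  have hl2 : 0 < 16 * l ^ 2 := by positivity
  rw [one_div, inv_mul_le_iff₀ hl2]
  linarith

end Ion
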