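import Pool.Agent.Lib.MP_69e010_mp.H.HA

/-!
# Stream H of MP_69e010_mp: integration by parts
-/

open MeasureTheory Metric Finset Filter Topology

noncomputable section

namespace Ion

variable {N : ℕ}

/-- integration by parts for Lipschitz functions -/
theorem integral_pd_mul {F G : Conf N → ℝ} {K : NNReal} (hF : LipschitzWith K F) (hG : LipC G)
    (k : Fin N) (c : Fin 3) :
    ∫ X, pd k c F X * G X = - ∫ X, F X * pd k c G X := by
  obtain ⟨L, hL⟩ := hG.1
  have h := LipschitzWith.integral_lineDeriv_mul_eq (μ := (volume : Measure (Conf N))) hF hL hG.2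
    (Pi.single k (EuclideanSpace.single c (1 : ℝ)) : Conf N)
  have h1 : ∫ X, pd k c F X * G X
      = ∫ X, lineDeriv ℝ F X (Pi.single k (EuclideanSpace.single c (1 : ℝ)) : Conf N) * G X := by
    apply integral_congr_ae
    filter_upwards [lip_ae_diff hF] with X hX
    rw [hX.lineDeriv_eq_fderiv, pd]
  have h2 : ∫ X, lineDeriv ℝ G X (-(Pi.single k (EuclideanSpace.single c (1 : ℝ)) : Conf N)) * F X
      = ∫ X, - (F X * pd k c G X) := by
    apply integral_congr_ae
    filter_upwards [lip_ae_diff hL] with X hX
    rw [hX.lineDeriv_eq_fderiv, pd, map_neg]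
    ring
  rw [h1, h, h2, integral_neg]

/-- the derivative of the square -/
theorem pd_sq {F : Conf N → ℝ} {X : Conf N} (hF : DifferentiableAt ℝ F X) (k : Fin N) (c : Fin 3) :
    pd k c (fun X => (F X) ^ 2) X = 2 * F X * pd k c F X := by
  have h := pd_mul hF hF k c
  have h1 : (fun X => (F X) ^ 2) = fun X => F X * F X := by
    funext X; ring
  rw [h1, h]
  ring

/-- the square of a Lipschitz function with compact support -/
theorem LipC.sq {F : Conf N → ℝ} (hF : LipC F) : LipC (fun X => (F X) ^ 2) := by
  obtain ⟨K, hK⟩ := hF.1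
  have h := hF.mul hK
  have h1 : (fun X => (F X) ^ 2) = fun X => F X * F X := by
    funext X; ring
  rw [h1]
  exact h

end Ion
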