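import Pool.Agent.Lib.MP_69e010_mp.H.HC

/-!
# Stream H of MP_69e010_mp: integrability of mixed products
-/

open MeasureTheory Metric Finset Filter Topology

noncomputable section

namespace Ion

variable {N : ℕ}

theorem aux_HJ {F G : Conf N → ℝ} (hF : LipC F) (hG : LipC G) :
    Measurable (fun X => F X * G X) ∧ (∃ C : ℝ, ∀ X, |F X * G X| ≤ C) ∧
      ∀ X, X ∉ tsupport F → F X * G X = 0 := by
  refine ⟨hF.cont.measurable.mul hG.cont.measurable, ?_, ?_⟩
  · obtain ⟨C, hC0, hC⟩ := hF.bdd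
    obtain ⟨D, hD0, hD⟩ := hG.bdd
    refine ⟨C * D, fun X => ?_⟩
    rw [abs_mul]
    exact mul_le_mul (hC X) (hD X) (abs_nonneg _) hC0
  · intro X hX
    rw [image_eq_zero_of_notMem_tsupport hX]
    ring

theorem LipC.int_mul {F G : Conf N → ℝ} (hF : LipC F) (hG : LipC G) :
    Integrable (fun X => F X * G X) := hF.integrable_mul hG

theorem LipC.int_gin {F G : Conf N → ℝ} (hF : LipC F) (hG : LipC G) (k : Fin N) :
    Integrable (gin k F G) := hF.integrable_gin hG k

theorem LipC.int_gsq {F : Conf N → ℝ} (hF : LipC F) (k : Fin N) :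
    Integrable (gsq k F) := hF.integrable_gsq k

theorem LipC.int_nuc {F G : Conf N → ℝ} (hF : LipC F) (hG : LipC G) (i : Fin N) :
    Integrable (fun X => ‖X i‖⁻¹ * (F X * G X)) := by
  obtain ⟨hm, ⟨C, hC⟩, hz⟩ := aux_HJ hF hG
  exact integrable_inv_mul hm hC hF.2.isCompact hz i

theorem LipC.int_pair {F G : Conf N → ℝ} (hF : LipC F) (hG : LipC G) {i j : Fin N} (hij : i ≠ j) :
    Integrable (fun X => ‖X i - X j‖⁻¹ * (F X * G X)) := by
  obtain ⟨hm, ⟨C, hC⟩, hz⟩ := aux_HJ hF hG
  exact integrable_inv_mul_pair hm hC hF.2.isCompact hz hij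

theorem LipC.int_Vee {F G : Conf N → ℝ} (hF : LipC F) (hG : LipC G) :
    Integrable (fun X => Vee X * (F X * G X)) := by
  have heq : (fun X : Conf N => Vee X * (F X * G X)) = fun X =>
      ∑ i, ∑ j ∈ univ.filter (fun j => i < j), ‖X i - X j‖⁻¹ * (F X * G X) := by
    funext X
    unfold Vee
    rw [Finset.sum_mul]
    refine Finset.sum_congr rfl (fun i _ => ?_)
    rw [Finset.sum_mul]
  rw [heq]
  refine integrable_finsetSum _ (fun i _ => ?_)
  refine integrable_finsetSum _ (fun j hj => ?_)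
  exact hF.int_pair hG (ne_of_lt (Finset.mem_filter.mp hj).2)

theorem LipC.int_Ven {F G : Conf N → ℝ} (hF : LipC F) (hG : LipC G) :
    Integrable (fun X => Ven X * (F X * G X)) := by
  have heq : (fun X : Conf N => Ven X * (F X * G X)) = fun X =>
      ∑ i, ‖X i‖⁻¹ * (F X * G X) := by
    funext X
    unfold Ven
    rw [Finset.sum_mul]
  rw [heq]
  exact integrable_finsetSum _ (fun i _ => hF.int_nuc hG i)

theorem LipC.int_V {F G : Conf N → ℝ} (hF : LipC F) (hG : LipC G) (z : ℝ) :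
    Integrable (fun X => V z X * (F X * G X)) := by
  have h1 := (hF.int_Vee hG).sub ((hF.int_Ven hG).const_mul z)
  refine h1.congr (ae_of_all _ (fun X => ?_))
  simp only [Pi.sub_apply]
  unfold V
  ring

theorem LipC.int_inv_sq {F G : Conf N → ℝ} (hF : LipC F) (hG : LipC G) (i : Fin N) :
    Integrable (fun X => (‖X i‖⁻¹) ^ 2 * (F X * G X)) := by
  obtain ⟨hm, ⟨C, hC⟩, hz⟩ := aux_HJ hF hG
  exact integrable_inv_sq_mul hm hC hF.2.isCompact hz i

theorem LipC.int_inv_sq_pair {F G : Conf N → ℝ} (hF : LipC F) (hG : LipC G) {i j : Fin N}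
    (hij : i ≠ j) : Integrable (fun X => (‖X i - X j‖⁻¹) ^ 2 * (F X * G X)) := by
  obtain ⟨hm, ⟨C, hC⟩, hz⟩ := aux_HJ hF hG
  exact integrable_inv_sq_mul_pair hm hC hF.2.isCompact hz hij

/-- a bounded measurable weight keeps integrability -/
theorem int_weight {w G : Conf N → ℝ} (hG : Integrable G) (hw : Measurable w) {C : ℝ}
    (hb : ∀ X, |w X| ≤ C) : Integrable (fun X => w X * G X) := by
  apply hG.bdd_mul hw.aestronglyMeasurable (c := C)
  exact Eventually.of_forall fun X => by rw [Real.norm_eq_abs]; exact hb X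

end Ion
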